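import Pool.Agent.MP_542436_nt.H5.Dir

set_option autoImplicit false

namespace Pool.Agent.MP_542436_nt.H5

open Polynomial

theorem Fam.swap {n : ℕ} (H : All) (P : Fam n) : ∃ P' : Fam n, P'.q = P.r ∧ P'.r = P.q ∧
    ∀ i s t, ev (P'.F i) t s = ev (P.F i) s t := by
  obtain ⟨sw, h1, h2⟩ := H.sym.1
  refine ⟨⟨fun i => sw (P.F i), P.r, P.q, fun i => (P.irr i).map sw, fun i j hij h => P.ne i j hij ?_,
    fun i => h2 _ _ _ (P.hom i), ⟨by have := P.h0.1; omega, P.h0.2.2, P.h0.2.1⟩,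
    fun i hi => by have := P.hi i hi; omega, fun i => by rw [h1]; exact P.nz i⟩, rfl, rfl,
    fun i s t => h1 _ _ _⟩
  simpa using h.map sw.symm

theorem Fam.exists_tau {n : ℕ} (H : All) (P : Fam n) (Z : Finset (ℤ × ℤ)) :
    ∃ N : ℤ, (N, (1 : ℤ)) ∉ Z ∧ ∀ i, ev (P.F i) (1, 0) (N, 1) ≠ 0 := by
  classical
  have hne : ∀ i, gt (P.F i) (1, 0) ≠ 0 := by
    intro i h
    have := (H.basic (P.F i) (P.q i) (P.r i) (P.hom i)).2.2.1 (1, 0)
    rw [h, coeff_zero] at this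
    exact P.nz i this.symm
  obtain ⟨N, hN⟩ := Infinite.exists_notMem_finset
    (Z.image Prod.fst ∪ Finset.univ.biUnion (fun i => (gt (P.F i) (1, 0)).roots.toFinset))
  refine ⟨N, fun h => hN (Finset.mem_union_left _ (Finset.mem_image.mpr ⟨_, h, rfl⟩)),
    fun i h => hN (Finset.mem_union_right _ (Finset.mem_biUnion.mpr ⟨i, Finset.mem_univ _, ?_⟩))⟩
  rw [Multiset.mem_toFinset, mem_roots (hne i), IsRoot,
    eval_eq_sum_range' (Nat.lt_succ_of_le ((H.basic _ _ _ (P.hom i)).1 (1, 0)))]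
  rw [← (H.basic _ _ _ (P.hom i)).2.1, hv] at h
  simpa using h

theorem Fam.pure {n : ℕ} (H : All) (P : Fam n) (i : Fin (n + 1)) (hi : P.r i = 0) (s t : ℤ × ℤ) :
    ev (P.F i) s t = ev (P.F i) s (1, 0) := by
  rw [← (H.basic _ _ _ (P.hom i)).2.1, ← (H.basic _ _ _ (P.hom i)).2.1, hi]
  simp [hv]

/-- The correction term: 2 for the distinguished component. -/
noncomputable def xx {n : ℕ} (i : Fin (n + 1)) : ℝ := if i = 0 then 2 else 0

theorem xx_nonneg {n : ℕ} (i : Fin (n + 1)) : 0 ≤ xx i := by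
  unfold xx; split_ifs <;> norm_num

theorem one_le_abs_cast {a : ℤ} (ha : a ≠ 0) : (1 : ℝ) ≤ |(a : ℝ)| := by
  exact_mod_cast Int.one_le_abs ha

theorem Fam.sdir {n : ℕ} (H : All) (P : Fam n) (η : ℝ) (hη : 0 < η) (hη' : η ≤ 1 / 4) :
    ∃ δ : ℝ, 0 < δ ∧ ∃ B0 : ℕ, ∀ A B : ℕ, 1 ≤ A → A ≤ B → B0 ≤ B → ∃ S : Finset (ℤ × ℤ),
      (S.card : ℝ) ≤ (A : ℝ) ^ 2 * (B : ℝ) ^ (-δ) ∧ ∀ s ∈ box A, s ∉ S →
        (∀ i, ev (P.F i) s (1, 0) ≠ 0) →
        (∀ i, (A : ℝ) ^ (P.q i : ℝ) * (B : ℝ) ^ (-η) ≤ |(ev (P.F i) s (1, 0) : ℝ)|) ∧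
        ∃ g : Fin (n + 1) → ℕ, (∀ i, Squarefree (g i)) ∧
          (∀ i, (g i : ℤ) ∣ ev (P.F i) s (1, 0)) ∧ (∀ i j, i ≠ j → Nat.Coprime (g i) (g j)) ∧
          ∀ i, P.r i = 0 →
            (A : ℝ) ^ ((P.q i : ℝ) - xx i) * (B : ℝ) ^ (-xx i - 5 * η) ≤ g i := by
  classical
  obtain ⟨P', hq, hr, hev⟩ := P.swap H
  obtain ⟨Z, hZ⟩ := P'.tdir H
  obtain ⟨δ1, hδ1, A1, ht⟩ := hZ η hη hη'
  obtain ⟨N, hNZ, hN⟩ := P.exists_tau H Z
  obtain ⟨δ2, hδ2, A2, hfib⟩ := fibre H.fewA H.fewB H.fewC H.arch (n + 1) P'.r (fun _ => False)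
    (fun i h => h.elim) 0 1 le_rfl η hη hη'
  have hm : 0 < min δ1 δ2 / 2 := by positivity
  obtain ⟨A3, hA3⟩ := ev_pow 2 _ hm
  obtain ⟨B0, hB0⟩ := ev_pow ((max (max A1 A2) (max A3 N.natAbs) : ℕ) : ℝ) (η / 8) (by positivity)
  refine ⟨η / 8 * (min δ1 δ2 / 2), by positivity, B0, fun A B hA hAB hB => ?_⟩
  have hA1 : (1 : ℝ) ≤ A := by exact_mod_cast hA
  have hABr : (A : ℝ) ≤ B := by exact_mod_cast hAB
  have hB1 : (1 : ℝ) ≤ B := hA1.trans hABr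
  have hA0 : (0 : ℝ) < A := by linarith
  have hBp : (0 : ℝ) < B := by linarith
  have hq8 : ∀ i, (P.q i : ℝ) ≤ 8 := fun i => by
    have := P.le8 i
    exact_mod_cast (show P.q i ≤ 8 by omega)
  by_cases hsm : (A : ℝ) < (B : ℝ) ^ (η / 8)
  · have hA8 : ∀ i, (A : ℝ) ^ (P.q i : ℝ) * (B : ℝ) ^ (-η) ≤ 1 := by
      intro i
      have h1 : (A : ℝ) ^ (P.q i : ℝ) ≤ (B : ℝ) ^ η := by
        calc (A : ℝ) ^ (P.q i : ℝ) ≤ (A : ℝ) ^ (8 : ℝ) :=
              Real.rpow_le_rpow_of_exponent_le hA1 (hq8 i)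
          _ ≤ ((B : ℝ) ^ (η / 8)) ^ (8 : ℝ) := Real.rpow_le_rpow hA0.le hsm.le (by norm_num)
          _ = (B : ℝ) ^ η := by rw [← Real.rpow_mul hBp.le]; congr 1; ring
      calc _ ≤ (B : ℝ) ^ η * (B : ℝ) ^ (-η) := by gcongr
        _ = 1 := by rw [← Real.rpow_add hBp]; simp
    refine ⟨∅, by simp only [Finset.card_empty, Nat.cast_zero]; positivity, fun s _ _ hlc =>
      ⟨fun i => (hA8 i).trans (one_le_abs_cast (hlc i)), fun _ => 1, fun _ => squarefree_one,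
        fun _ => by simp, fun _ _ _ => by simp, fun i _ => ?_⟩⟩
    refine le_trans ?_ ((hA8 i).trans (by simp))
    have := xx_nonneg i
    exact mul_le_mul (Real.rpow_le_rpow_of_exponent_le hA1 (by linarith))
      (Real.rpow_le_rpow_of_exponent_le hB1 (by linarith)) (by positivity) (by positivity)
  have hbig : max (max A1 A2) (max A3 N.natAbs) ≤ A := by
    have := (hB0 B hB).trans (not_lt.mp hsm)
    exact_mod_cast this
  have hτ : (N, (1 : ℤ)) ∈ box A := by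
    rw [mem_box]
    refine ⟨?_, by simpa using hA, by simp⟩
    have : N.natAbs ≤ A := by omega
    rw [← Int.natCast_natAbs]
    exact_mod_cast this
  obtain ⟨T, D, hT, -, hTg⟩ := ht A (by omega) _ hτ hNZ (fun i => by rw [hev]; exact hN i)
  have hdeg := fun i => (H.basic (P'.F i) _ _ (P'.hom i)).1 (1, 0)
  have hhv := fun i => (H.basic (P'.F i) _ _ (P'.hom i)).2.1 (1, 0)
  have hlce := fun i => (H.basic (P'.F i) _ _ (P'.hom i)).2.2.1 (1, 0)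
  have hc := hfib A (by omega) (fun i => gt (P'.F i) (1, 0), fun _ => 0, 0)
    ⟨fun i => ⟨hdeg i, by rw [hlce i]; exact P'.nz i⟩, fun _ h => h.elim⟩
  have hT2 : ∃ T2 : Finset (ℤ × ℤ), (T2.card : ℝ) ≤ (A : ℝ) ^ (2 - δ2) ∧ ∀ s ∈ box A, s ∉ T2 →
      ∀ i, |(ev (P.F i) (1, 0) (1, 0) : ℝ)| * (A : ℝ) ^ ((P.q i : ℝ) - η) ≤
        |(ev (P.F i) s (1, 0) : ℝ)| := by
    refine ⟨_, hc, fun s hs hsA => ?_⟩
    simp only [Finset.mem_filter, hs, true_and, not_not, hhv, hlce, hev] at hsA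
    rw [hr] at hsA
    exact hsA.1
  obtain ⟨T2, hc, hT2⟩ := hT2
  refine ⟨T ∪ T2, le_trans (Nat.cast_le.mpr (Finset.card_union_le _ _)) ?_,
    fun s hs hsS hlc => ?_⟩
  · push_cast
    refine (add_le_add hT hc).trans ?_
    have h4 : (A : ℝ) ^ (2 - δ1) ≤ (A : ℝ) ^ (2 - min δ1 δ2) :=
      Real.rpow_le_rpow_of_exponent_le hA1 (by linarith [min_le_left δ1 δ2])
    have h5 : (A : ℝ) ^ (2 - δ2) ≤ (A : ℝ) ^ (2 - min δ1 δ2) :=
      Real.rpow_le_rpow_of_exponent_le hA1 (by linarith [min_le_right δ1 δ2])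
    have h6 := hA3 A (by omega)
    have h7 : (A : ℝ) ^ (-(min δ1 δ2 / 2)) ≤ (B : ℝ) ^ (-(η / 8 * (min δ1 δ2 / 2))) := by
      rw [← mul_neg, Real.rpow_mul hBp.le]
      exact Real.rpow_le_rpow_of_nonpos (by positivity) (not_lt.mp hsm) (by linarith)
    have h8 : (A : ℝ) ^ (min δ1 δ2 / 2) * (A : ℝ) ^ (2 - min δ1 δ2) =
        (A : ℝ) ^ 2 * (A : ℝ) ^ (-(min δ1 δ2 / 2)) := by
      rw [← Real.rpow_add hA0, ← Real.rpow_natCast, ← Real.rpow_add hA0]; congr 1; push_cast; ring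
    have h9 : (0 : ℝ) ≤ (A : ℝ) ^ (2 - min δ1 δ2) := by positivity
    calc _ ≤ (A : ℝ) ^ (min δ1 δ2 / 2) * (A : ℝ) ^ (2 - min δ1 δ2) := by nlinarith
      _ = _ := h8
      _ ≤ _ := by gcongr
  · rw [Finset.mem_union, not_or] at hsS
    obtain ⟨hsT, hsA⟩ := hsS
    obtain ⟨g, g1, g2, g3, -, g5⟩ := hTg s hs hsT
    have hAη : (B : ℝ) ^ (-η) ≤ (A : ℝ) ^ (-η) :=
      Real.rpow_le_rpow_of_nonpos hA0 hABr (by linarith)
    refine ⟨fun i => le_trans ?_ (hT2 s hs hsA i), fun i => if P.r i = 0 then g i else 1, fun i => ?_,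
      fun i => ?_, fun i j hij => ?_, fun i hi => ?_⟩
    · have h1 := one_le_abs_cast (P.nz i)
      rw [sub_eq_add_neg, Real.rpow_add hA0]
      have h2 : (0 : ℝ) ≤ (A : ℝ) ^ (P.q i : ℝ) * (A : ℝ) ^ (-η) := by positivity
      have h3 : (A : ℝ) ^ (P.q i : ℝ) * (B : ℝ) ^ (-η) ≤ (A : ℝ) ^ (P.q i : ℝ) * (A : ℝ) ^ (-η) := by
        gcongr
      nlinarith
    · beta_reduce
      split_ifs
      · exact g1 i
      · exact squarefree_one
    · beta_reduce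
      split_ifs with h
      · have := g2 i
        rwa [hev, P.pure H i h] at this
      · simp
    · beta_reduce
      split_ifs
      · exact g3 i j hij
      all_goals simp
    · simp only [hi, if_true]
      have hx := xx_nonneg i
      have hg1 : (1 : ℝ) ≤ g i := by exact_mod_cast Nat.pos_of_ne_zero (g1 i).ne_zero
      have hB5 : (B : ℝ) ^ (-xx i - 5 * η) ≤ (A : ℝ) ^ (-(5 * η)) :=
        (Real.rpow_le_rpow_of_exponent_le hB1 (by linarith)).trans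
          (Real.rpow_le_rpow_of_nonpos hA0 hABr (by linarith))
      have hmain : (A : ℝ) ^ ((P.q i : ℝ) - xx i) * (B : ℝ) ^ (-xx i - 5 * η) ≤
          (A : ℝ) ^ ((P.q i : ℝ) - xx i - 5 * η) := by
        rw [sub_eq_add_neg ((P.q i : ℝ) - xx i), Real.rpow_add hA0]
        gcongr
      refine hmain.trans ?_
      by_cases hq0 : P.q i = 0
      · refine le_trans ?_ hg1
        apply Real.rpow_le_one_of_one_le_of_nonpos hA1
        rw [hq0]; push_cast; linarith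
      rcases g5 i (by rw [hr]; omega) with h | ⟨h0, h⟩
      · refine le_trans ?_ h
        have h1 : (1 : ℝ) ≤ |(ev (P'.F i) (N, 1) (1, 0) : ℝ)| :=
          one_le_abs_cast (by rw [hev]; exact hN i)
        have h2 : (A : ℝ) ^ ((P.q i : ℝ) - xx i - 5 * η) ≤ (A : ℝ) ^ ((P'.r i : ℝ) - 4 * η) :=
          Real.rpow_le_rpow_of_exponent_le hA1 (by rw [hr]; linarith)
        have h3 : (0 : ℝ) ≤ (A : ℝ) ^ ((P'.r i : ℝ) - 4 * η) := by positivity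
        nlinarith
      · refine le_trans (Real.rpow_le_rpow_of_exponent_le hA1 ?_) h
        subst h0
        have : (P.q 0 : ℝ) ≤ 6 := by exact_mod_cast P.h0.2.1
        simp only [xx, if_true]
        linarith

theorem card_box_le (B : ℕ) (hB : 1 ≤ B) : ((box B).card : ℝ) ≤ 9 * (B : ℝ) ^ 2 := by
  have h1 : (box B).card ≤ (2 * B + 1) * (2 * B + 1) := by
    refine (Finset.card_filter_le _ _).trans ?_
    rw [Finset.card_product, Int.card_Icc]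
    have : ((B : ℤ) + 1 - -(B : ℤ)).toNat = 2 * B + 1 := by omega
    rw [this]
  have h2 : ((box B).card : ℝ) ≤ (2 * B + 1) * (2 * B + 1) := by exact_mod_cast h1
  have h3 : (1 : ℝ) ≤ B := by exact_mod_cast hB
  nlinarith

theorem box_mono {A B : ℕ} (h : A ≤ B) : box A ⊆ box B := by
  intro t ht
  rw [mem_box] at ht ⊢
  have : (A : ℤ) ≤ B := by exact_mod_cast h
  exact ⟨ht.1.trans this, ht.2.1.trans this, ht.2.2⟩

theorem sum_xx (n : ℕ) : ∑ i : Fin (n + 1), xx i = 2 := by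
  simp [xx]

theorem Fam.point {n : ℕ} (H : All) (P : Fam n) (η : ℝ) (A B : ℕ) (hA : 1 ≤ A)
    (hAB : A ≤ B) (s t : ℤ × ℤ) (D : ℤ) (hne : ∏ i, ev (P.F i) s t ≠ 0)
    (hD : ∀ i, ev (P.F i) s (1, 0) ∣ D)
    (hL : ∀ i, (A : ℝ) ^ (P.q i : ℝ) * (B : ℝ) ^ (-η) ≤ |(ev (P.F i) s (1, 0) : ℝ)|)
    (g : Fin (n + 1) → ℕ) (g1 : ∀ i, Squarefree (g i))
    (g2 : ∀ i, (g i : ℤ) ∣ ev (P.F i) s (1, 0)) (g3 : ∀ i j, i ≠ j → Nat.Coprime (g i) (g j))
    (g4 : ∀ i, P.r i = 0 → (A : ℝ) ^ ((P.q i : ℝ) - xx i) * (B : ℝ) ^ (-xx i - 5 * η) ≤ g i)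
    (f : Fin (n + 1) → ℕ) (f1 : ∀ i, Squarefree (f i)) (f2 : ∀ i, (f i : ℤ) ∣ ev (P.F i) s t)
    (f3 : ∀ i j, i ≠ j → Nat.Coprime (f i) (f j)) (f4 : ∀ i, IsCoprime (f i : ℤ) D)
    (f5 : ∀ i, 1 ≤ P.r i →
      |(ev (P.F i) s (1, 0) : ℝ)| * (B : ℝ) ^ ((P.r i : ℝ) - 4 * η) ≤ f i ∨
        (i = 0 ∧ (B : ℝ) ^ (4 - 5 * η) ≤ f i)) :
    (A : ℝ) ^ ((∑ i, (P.q i : ℝ)) - 2) *
      (B : ℝ) ^ ((∑ i, (P.r i : ℝ)) - 2 - 5 * η * (n + 1)) ≤ rad (∏ i, ev (P.F i) s t) := by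
  have hA1 : (1 : ℝ) ≤ A := by exact_mod_cast hA
  have hABr : (A : ℝ) ≤ B := by exact_mod_cast hAB
  have hB1 : (1 : ℝ) ≤ B := hA1.trans hABr
  have hA0 : (0 : ℝ) < A := by linarith
  have hBp : (0 : ℝ) < B := by linarith
  have hmix : ∀ i j, Nat.Coprime (f i) (g j) := by
    intro i j
    have := (f4 i).of_isCoprime_of_dvd_right ((g2 j).trans (hD j))
    exact Nat.isCoprime_iff_coprime.mp this
  have hle := prod_le_rad (fun i => if P.r i = 0 then g i else f i) _ hne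
    (fun i => by
      split_ifs
      · exact g1 i
      · exact f1 i)
    (fun i => by
      refine Dvd.dvd.trans ?_ (Finset.dvd_prod_of_mem _ (Finset.mem_univ i))
      split_ifs with h
      · rw [P.pure H i h]; exact g2 i
      · exact f2 i)
    (fun i j hij => by
      split_ifs
      · exact g3 i j hij
      · exact (hmix j i).symm
      · exact hmix i j
      · exact f3 i j hij)
  have hle' : ((∏ i, (if P.r i = 0 then g i else f i) : ℕ) : ℝ) ≤ rad (∏ i, ev (P.F i) s t) := by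
    exact_mod_cast hle
  refine le_trans ?_ hle'
  have e1 : (∑ i, (P.q i : ℝ)) - 2 = ∑ i, ((P.q i : ℝ) - xx i) := by
    rw [Finset.sum_sub_distrib, sum_xx]
  have e2 : (∑ i, (P.r i : ℝ)) - 2 - 5 * η * (n + 1) = ∑ i, ((P.r i : ℝ) - xx i - 5 * η) := by
    rw [Finset.sum_sub_distrib, Finset.sum_sub_distrib, sum_xx]
    simp only [Finset.sum_const, Finset.card_univ, Fintype.card_fin, nsmul_eq_mul]
    push_cast; ring
  rw [e1, e2, Real.rpow_sum_of_pos hA0, Real.rpow_sum_of_pos hBp, ← Finset.prod_mul_distrib]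
  push_cast
  apply Finset.prod_le_prod (fun i _ => by positivity)
  intro i _
  have hx := xx_nonneg i
  split_ifs with h
  · have := g4 i h
    rw [h]
    simpa using this
  · rcases f5 i (by omega) with h1 | ⟨h0, h1⟩
    · refine le_trans ?_ h1
      calc (A : ℝ) ^ ((P.q i : ℝ) - xx i) * (B : ℝ) ^ ((P.r i : ℝ) - xx i - 5 * η)
          ≤ (A : ℝ) ^ (P.q i : ℝ) * (B : ℝ) ^ (-η + ((P.r i : ℝ) - 4 * η)) :=
            mul_le_mul (Real.rpow_le_rpow_of_exponent_le hA1 (by linarith))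
              (Real.rpow_le_rpow_of_exponent_le hB1 (by linarith)) (by positivity) (by positivity)
        _ = (A : ℝ) ^ (P.q i : ℝ) * (B : ℝ) ^ (-η) * (B : ℝ) ^ ((P.r i : ℝ) - 4 * η) := by
            rw [Real.rpow_add hBp]; ring
        _ ≤ _ := by have := hL i; gcongr
    · refine le_trans ?_ h1
      subst h0
      simp only [xx, if_true]
      have a1 : (P.q 0 : ℝ) + P.r 0 ≤ 8 := by exact_mod_cast P.h0.1
      have a2 : (P.r 0 : ℝ) ≤ 6 := by exact_mod_cast P.h0.2.2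
      by_cases hq : (P.q 0 : ℝ) - 2 ≤ 0
      · calc _ ≤ 1 * (B : ℝ) ^ (4 - 5 * η) :=
              mul_le_mul (Real.rpow_le_one_of_one_le_of_nonpos hA1 hq)
                (Real.rpow_le_rpow_of_exponent_le hB1 (by linarith)) (by positivity) (by positivity)
          _ = _ := one_mul _
      · calc _ ≤ (B : ℝ) ^ ((P.q 0 : ℝ) - 2) * (B : ℝ) ^ ((P.r 0 : ℝ) - 2 - 5 * η) := by
              gcongr
              linarith
          _ = (B : ℝ) ^ ((P.q 0 : ℝ) - 2 + ((P.r 0 : ℝ) - 2 - 5 * η)) := by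
              rw [Real.rpow_add hBp]
          _ ≤ _ := Real.rpow_le_rpow_of_exponent_le hB1 (by linarith)

open Classical in
theorem Fam.boxThm {n : ℕ} (H : All) (P : Fam n) : ∃ Z : Finset (ℤ × ℤ), ∀ ε : ℝ, 0 < ε →
    ∃ δ : ℝ, 0 < δ ∧ ∃ B0 : ℕ, ∀ A B : ℕ, 1 ≤ A → A ≤ B → B0 ≤ B →
      (((box A ×ˢ box B).filter (fun st => st.1 ∉ Z ∧ ∏ i, ev (P.F i) st.1 st.2 ≠ 0 ∧
        (rad (∏ i, ev (P.F i) st.1 st.2) : ℝ) < (A : ℝ) ^ ((∑ i, (P.q i : ℝ)) - 2) *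
          (B : ℝ) ^ ((∑ i, (P.r i : ℝ)) - 2 - ε))).card : ℝ) ≤
        (A : ℝ) ^ 2 * (B : ℝ) ^ (2 - δ) := by
  obtain ⟨Z, hZ⟩ := P.tdir H
  have h1 : ∀ i, ∃ Z : Finset (ℤ × ℤ), ∀ s : ℤ × ℤ, Int.gcd s.1 s.2 = 1 → s ∉ Z → 1 ≤ P.r i →
      ev (P.F i) s (1, 0) ≠ 0 := by
    intro i
    by_cases hi : 1 ≤ P.r i
    · obtain ⟨Z, hZ⟩ := H.sep _ _ _ (P.irr i) (P.hom i) hi (P.nz i)
      exact ⟨Z, fun s hs hsZ _ => by
        rw [← (H.basic _ _ _ (P.hom i)).2.2.1]; exact (hZ s hs hsZ).1⟩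
    · exact ⟨∅, fun s _ _ h => absurd h hi⟩
  choose Z1 hZ1 using h1
  refine ⟨Z ∪ Finset.univ.biUnion Z1, fun ε hε => ?_⟩
  have hn : (0 : ℝ) < n + 1 := by positivity
  obtain ⟨η, hη, hη', hηε⟩ : ∃ η : ℝ, 0 < η ∧ η ≤ 1 / 4 ∧ 5 * η * (n + 1) ≤ ε := by
    refine ⟨min (1 / 4) (ε / (5 * (n + 1))), by positivity, min_le_left _ _, ?_⟩
    have h := min_le_right (1 / 4) (ε / (5 * ((n : ℝ) + 1)))
    rw [le_div_iff₀ (by positivity)] at h
    linarith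
  obtain ⟨δ1, hδ1, B1, ht⟩ := hZ η hη hη'
  obtain ⟨δ2, hδ2, B2, hs⟩ := P.sdir H η hη hη'
  have hm : 0 < min δ1 δ2 / 2 := by positivity
  obtain ⟨B3, hB3⟩ := ev_pow 18 _ hm
  refine ⟨min δ1 δ2 / 2, hm, max B1 (max B2 B3), fun A B hA hAB hB => ?_⟩
  have hA1 : (1 : ℝ) ≤ A := by exact_mod_cast hA
  have hABr : (A : ℝ) ≤ B := by exact_mod_cast hAB
  have hB1 : (1 : ℝ) ≤ B := hA1.trans hABr
  have hBp : (0 : ℝ) < B := by linarith
  obtain ⟨S, hS, hSg⟩ := hs A B hA hAB (by omega)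
  have hT : ∀ s : ℤ × ℤ, ∃ T : Finset (ℤ × ℤ), (T.card : ℝ) ≤ (B : ℝ) ^ (2 - δ1) ∧
      ∀ t, s ∈ box A → t ∈ box B → s ∉ S → t ∉ T → s ∉ Z ∪ Finset.univ.biUnion Z1 →
        ∏ i, ev (P.F i) s t ≠ 0 → (A : ℝ) ^ ((∑ i, (P.q i : ℝ)) - 2) *
          (B : ℝ) ^ ((∑ i, (P.r i : ℝ)) - 2 - ε) ≤ rad (∏ i, ev (P.F i) s t) := by
    intro s
    by_cases hc : s ∈ box A ∧ s ∉ Z ∧ ∀ i, ev (P.F i) s (1, 0) ≠ 0
    · obtain ⟨hsA, hsZ, hlc⟩ := hc
      obtain ⟨T, D, hT, hD, hTg⟩ := ht B (by omega) s (box_mono hAB hsA) hsZ hlc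
      refine ⟨T, hT, fun t _ htB hsS htT _ hne => ?_⟩
      obtain ⟨hL, g, g1, g2, g3, g4⟩ := hSg s hsA hsS hlc
      obtain ⟨f, f1, f2, f3, f4, f5⟩ := hTg t htB htT
      refine le_trans ?_ (P.point H η A B hA hAB s t D hne hD hL g g1 g2 g3 g4 f f1 f2 f3 f4 f5)
      exact mul_le_mul_of_nonneg_left (Real.rpow_le_rpow_of_exponent_le hB1 (by linarith))
        (by positivity)
    · refine ⟨∅, by simp only [Finset.card_empty, Nat.cast_zero]; positivity,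
        fun t hsA _ _ _ hsZ hne => absurd ⟨hsA, fun h => hsZ (Finset.mem_union_left _ h),
          fun i => ?_⟩ hc⟩
      by_cases hi : P.r i = 0
      · rw [← P.pure H i hi s t]
        exact Finset.prod_ne_zero_iff.mp hne i (Finset.mem_univ i)
      · exact hZ1 i s (mem_box.mp hsA).2.2 (fun h => hsZ (Finset.mem_union_right _
          (Finset.mem_biUnion.mpr ⟨i, Finset.mem_univ _, h⟩))) (by omega)
  choose T hT hTg using hT
  have hsub : (box A ×ˢ box B).filter (fun st => st.1 ∉ Z ∪ Finset.univ.biUnion Z1 ∧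
      ∏ i, ev (P.F i) st.1 st.2 ≠ 0 ∧
        (rad (∏ i, ev (P.F i) st.1 st.2) : ℝ) < (A : ℝ) ^ ((∑ i, (P.q i : ℝ)) - 2) *
          (B : ℝ) ^ ((∑ i, (P.r i : ℝ)) - 2 - ε)) ⊆
      S ×ˢ box B ∪ (box A).biUnion (fun s => (T s).image (fun t => (s, t))) := by
    rintro ⟨s, t⟩ h
    simp only [Finset.mem_filter, Finset.mem_product] at h
    obtain ⟨⟨hsA, htB⟩, hsZ, hne, hlt⟩ := h
    by_cases h1 : s ∈ S
    · exact Finset.mem_union_left _ (Finset.mem_product.mpr ⟨h1, htB⟩)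
    · by_cases h2 : t ∈ T s
      · exact Finset.mem_union_right _
          (Finset.mem_biUnion.mpr ⟨s, hsA, Finset.mem_image.mpr ⟨t, h2, rfl⟩⟩)
      · exact absurd (hTg s t hsA htB h1 h2 hsZ hne) (not_le.mpr hlt)
  have c1 : ((S ×ˢ box B).card : ℝ) ≤ 9 * ((A : ℝ) ^ 2 * (B : ℝ) ^ (2 - min δ1 δ2)) := by
    rw [Finset.card_product]
    push_cast
    calc (S.card : ℝ) * (box B).card ≤ ((A : ℝ) ^ 2 * (B : ℝ) ^ (-δ2)) * (9 * (B : ℝ) ^ 2) :=
          mul_le_mul hS (card_box_le B (by omega)) (by positivity) (by positivity)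
      _ = 9 * ((A : ℝ) ^ 2 * (B : ℝ) ^ (2 - δ2)) := by
          rw [sub_eq_add_neg, Real.rpow_add hBp, Real.rpow_two]; ring
      _ ≤ _ := by
          have := Real.rpow_le_rpow_of_exponent_le hB1
            (show 2 - δ2 ≤ 2 - min δ1 δ2 by linarith [min_le_right δ1 δ2])
          gcongr
  have c2 : (((box A).biUnion (fun s => (T s).image (fun t => (s, t)))).card : ℝ) ≤
      9 * ((A : ℝ) ^ 2 * (B : ℝ) ^ (2 - min δ1 δ2)) := by
    refine le_trans (Nat.cast_le.mpr Finset.card_biUnion_le) ?_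
    push_cast
    calc ∑ s ∈ box A, (((T s).image (fun t => (s, t))).card : ℝ)
        ≤ ∑ _s ∈ box A, (B : ℝ) ^ (2 - min δ1 δ2) := by
          apply Finset.sum_le_sum
          intro s _
          refine le_trans (Nat.cast_le.mpr Finset.card_image_le) ((hT s).trans ?_)
          exact Real.rpow_le_rpow_of_exponent_le hB1 (by linarith [min_le_left δ1 δ2])
      _ = (box A).card * (B : ℝ) ^ (2 - min δ1 δ2) := by simp
      _ ≤ (9 * (A : ℝ) ^ 2) * (B : ℝ) ^ (2 - min δ1 δ2) := by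
          have := card_box_le A hA
          gcongr
      _ = _ := by ring
  refine le_trans (Nat.cast_le.mpr ((Finset.card_le_card hsub).trans
    (Finset.card_union_le _ _))) ?_
  push_cast
  have h6 : (B : ℝ) ^ (2 - min δ1 δ2 / 2) =
      (B : ℝ) ^ (min δ1 δ2 / 2) * (B : ℝ) ^ (2 - min δ1 δ2) := by
    rw [← Real.rpow_add hBp]; congr 1; ring
  have h7 := hB3 B (by omega)
  have h8 : (0 : ℝ) ≤ (A : ℝ) ^ 2 * (B : ℝ) ^ (2 - min δ1 δ2) := by positivity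
  rw [h6]
  nlinarith

end Pool.Agent.MP_542436_nt.H5
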