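import Pool.Agent.MP_542436_nt.H5.Defs

set_option autoImplicit false

namespace Pool.Agent.MP_542436_nt.H5

theorem split_primes (Q : ℕ → Prop) (N : ℕ) (hN : N ≠ 0) :
    ∃ a b : ℕ, N = a * b ∧ (∀ p : ℕ, p.Prime → p ∣ a → Q p) ∧
      (∀ p : ℕ, p.Prime → p ∣ b → ¬ Q p) := by
  induction N using Nat.recOnMul with
  | zero => exact absurd rfl hN
  | one =>
    refine ⟨1, 1, rfl, ?_, ?_⟩ <;> intro p hp h <;> exact absurd (Nat.dvd_one.mp h) hp.ne_one
  | prime p hp =>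
    by_cases h : Q p
    · refine ⟨p, 1, by ring, ?_, ?_⟩
      · intro q hq hd
        rwa [(Nat.prime_dvd_prime_iff_eq hq hp).mp hd]
      · intro q hq hd
        exact absurd (Nat.dvd_one.mp hd) hq.ne_one
    · refine ⟨1, p, by ring, ?_, ?_⟩
      · intro q hq hd
        exact absurd (Nat.dvd_one.mp hd) hq.ne_one
      · intro q hq hd
        rwa [(Nat.prime_dvd_prime_iff_eq hq hp).mp hd]
  | mul x y ihx ihy =>
    obtain ⟨a, b, h1, h2, h3⟩ := ihx (left_ne_zero_of_mul hN)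
    obtain ⟨a', b', h1', h2', h3'⟩ := ihy (right_ne_zero_of_mul hN)
    refine ⟨a * a', b * b', by rw [h1, h1']; ring, ?_, ?_⟩
    · intro p hp hd
      rcases (Nat.Prime.dvd_mul hp).mp hd with h | h
      · exact h2 p hp h
      · exact h2' p hp h
    · intro p hp hd
      rcases (Nat.Prime.dvd_mul hp).mp hd with h | h
      · exact h3 p hp h
      · exact h3' p hp h

theorem cop_of_primes (d : ℕ) (D : ℤ) (h : ∀ p : ℕ, p.Prime → p ∣ d → ¬ (p : ℤ) ∣ D) :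
    IsCoprime (d : ℤ) D := by
  rw [Int.isCoprime_iff_gcd_eq_one]
  by_contra hne
  obtain ⟨p, hp, hd⟩ := Nat.exists_prime_and_dvd hne
  have h1 : (p : ℤ) ∣ (d : ℤ) := (Int.natCast_dvd_natCast.mpr hd).trans (Int.gcd_dvd_left _ _)
  have h2 : (p : ℤ) ∣ D := (Int.natCast_dvd_natCast.mpr hd).trans (Int.gcd_dvd_right _ _)
  exact h p hp (Int.natCast_dvd_natCast.mp h1) h2

theorem mid_divisor (a : ℕ) (Y : ℝ) (hY : 1 < Y) (ha : Y ≤ a)
    (hp : ∀ p : ℕ, p.Prime → p ∣ a → (p : ℝ) < Y) :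
    ∃ d : ℕ, d ∣ a ∧ Y ≤ d ∧ (d : ℝ) ≤ Y * Y := by
  classical
  have hex : ∃ d : ℕ, d ∣ a ∧ Y ≤ d := ⟨a, dvd_rfl, ha⟩
  obtain ⟨hd, hYd⟩ := Nat.find_spec hex
  refine ⟨Nat.find hex, hd, hYd, ?_⟩
  have h1 : Nat.find hex ≠ 1 := by
    intro h
    rw [h] at hYd
    norm_num at hYd
    linarith
  obtain ⟨p, hpp, e, he⟩ := Nat.exists_prime_and_dvd h1
  have hpos : 0 < Nat.find hex := by
    have : (0 : ℝ) < (Nat.find hex : ℕ) := by linarith
    exact_mod_cast this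
  have he0 : 0 < e := Nat.pos_of_ne_zero (by rintro rfl; omega)
  have hlt : e < Nat.find hex := by
    rw [he]
    have := hpp.two_le
    nlinarith
  have hmin := Nat.find_min hex hlt
  have hea : e ∣ a := (Dvd.intro_left p he.symm).trans hd
  have heY : (e : ℝ) < Y := by
    by_contra hcon
    exact hmin ⟨hea, not_lt.mp hcon⟩
  have hpY := hp p hpp ((Dvd.intro e he.symm).trans hd)
  rw [he]
  push_cast
  have : (0 : ℝ) ≤ e := Nat.cast_nonneg e
  have : (0 : ℝ) ≤ p := Nat.cast_nonneg p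
  nlinarith

theorem big_of_not_PC {η : ℝ} {B : ℕ} {D n : ℤ} (hC : ¬ PC η B D n) (z k E : ℕ)
    (hk : k = 2 ∨ k = 3) (hz : 1 < z)
    (hp : ∀ p : ℕ, p.Prime → p ∣ z → (B : ℝ) ^ (2 - η) < p) (hE : n.natAbs = E * z ^ k) :
    (B : ℝ) ^ (2 - η) < E := by
  by_contra hcon
  apply hC
  refine ⟨n.sign * E, z, k, hk, ?_, hz, hp, ?_⟩
  · have h1 : n = n.sign * (n.natAbs : ℤ) := (Int.sign_mul_natAbs n).symm
    rw [hE] at h1
    push_cast at h1
    rw [mul_assoc]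
    exact h1
  · push_cast
    rw [abs_mul, abs_of_nonneg (Nat.cast_nonneg E : (0 : ℝ) ≤ E)]
    have h1 : |((n.sign : ℤ) : ℝ)| ≤ 1 := by
      rcases Int.sign_trichotomy n with h | h | h <;> rw [h] <;> norm_num
    have h2 : (0 : ℝ) ≤ E := Nat.cast_nonneg E
    nlinarith [not_lt.mp hcon]

theorem defect (η : ℝ) (B : ℕ) (D n : ℤ) (hη : 0 < η) (hη' : η ≤ 1 / 4) (hB : 2 ≤ B)
    (hn : n ≠ 0) (hA : ¬ PA η B D n) (hBn : ¬ PB η B D n) (hC : ¬ PC η B D n)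
    (hsz : |(n : ℝ)| ≤ (B : ℝ) ^ (10 - 5 * η)) :
    ∃ g : ℕ, Squarefree g ∧ (g : ℤ) ∣ n ∧ IsCoprime (g : ℤ) D ∧
      (|(n : ℝ)| ≤ g * (B : ℝ) ^ (3 * η) ∨
        ((B : ℝ) ^ (6 - 3 * η) < |(n : ℝ)| ∧ (B : ℝ) ^ (4 - 5 * η) ≤ g)) := by
  have hB1 : (1 : ℝ) < B := by exact_mod_cast hB
  have hB0 : (0 : ℝ) < B := by linarith
  set N := n.natAbs with hNdef
  have hN : N ≠ 0 := Int.natAbs_ne_zero.mpr hn
  have hNr : |(n : ℝ)| = (N : ℝ) := by
    rw [hNdef, Nat.cast_natAbs]; push_cast; rfl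
  have hdv : ∀ m : ℕ, m ∣ N → (m : ℤ) ∣ n := fun m hm => Int.natCast_dvd.mpr hm
  set Y := (B : ℝ) ^ η with hY
  set P := (B : ℝ) ^ (2 - η) with hP
  have hY1 : 1 < Y := Real.one_lt_rpow hB1 hη
  have hP1 : 1 < P := Real.one_lt_rpow hB1 (by linarith)
  have hYP : Y * Y ≤ P := by
    rw [hY, hP, ← Real.rpow_add hB0]
    exact Real.rpow_le_rpow_of_exponent_le hB1.le (by linarith)
  have h3 : (B : ℝ) ^ (3 * η) = Y * Y * Y := by
    rw [hY, ← Real.rpow_add hB0, ← Real.rpow_add hB0]; congr 1; ring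
  have h6 : (B : ℝ) ^ (6 - 3 * η) = P * P * P := by
    rw [hP, ← Real.rpow_add hB0, ← Real.rpow_add hB0]; congr 1; ring
  have h10 : (B : ℝ) ^ (10 - 5 * η) = P * (P * P) ^ 2 := by
    rw [sq, hP, ← Real.rpow_add hB0, ← Real.rpow_add hB0, ← Real.rpow_add hB0]; congr 1; ring
  have h4 : (B : ℝ) ^ (4 - 5 * η) * (Y * Y * Y) = P * P := by
    rw [← h3, hP, ← Real.rpow_add hB0, ← Real.rpow_add hB0]; congr 1; ring
  obtain ⟨b, G, hbG, hb, hG⟩ := split_primes (fun p => (p : ℤ) ∣ D) N hN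
  have hG0 : G ≠ 0 := by rintro rfl; exact hN (by simpa using hbG)
  obtain ⟨w, u, hwu, hw, hu⟩ := split_primes (fun p => P < p ∧ p ^ 2 ∣ N) G hG0
  have hu0 : u ≠ 0 := by rintro rfl; exact hG0 (by simpa using hwu)
  have hw0 : w ≠ 0 := by rintro rfl; exact hG0 (by simpa using hwu)
  obtain ⟨c, a, hac, hc⟩ := Nat.sq_mul_squarefree u
  have hNe : N = b * a ^ 2 * c * w := by rw [hbG, hwu, ← hac]; ring
  have hbY : (b : ℝ) ≤ Y := by
    by_contra hcon
    exact hA ⟨b, hdv b ⟨G, hbG⟩, hb, not_le.mp hcon⟩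
  have huG : u ∣ G := ⟨w, by rw [hwu]; ring⟩
  have hwG : w ∣ G := ⟨u, hwu⟩
  have hau : a ∣ u := ⟨a * c, by rw [← hac]; ring⟩
  have hcu : c ∣ u := ⟨a ^ 2, by rw [← hac]; ring⟩
  have hsqa : ∀ d : ℕ, d ∣ a → d ^ 2 ∣ N := fun d hd =>
    (pow_dvd_pow_of_dvd hd 2).trans ⟨b * c * w, by rw [hNe]; ring⟩
  have hcopa : ∀ d : ℕ, d ∣ G → IsCoprime (d : ℤ) D := fun d hd =>
    cop_of_primes d D (fun p hp hpd => hG p hp (hpd.trans hd))
  have hnoB : ∀ d : ℕ, d ∣ a → Y ≤ d → (d : ℝ) ≤ P → False := by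
    intro d hd h1 h2
    refine hBn ⟨d, hcopa d ((hd.trans hau).trans huG), ?_, h1, h2⟩
    have := hdv _ (hsqa d hd)
    push_cast at this
    exact this
  have haY : (a : ℝ) < Y := by
    by_contra hcon
    have hpa : ∀ p : ℕ, p.Prime → p ∣ a → (p : ℝ) < Y := by
      intro p hp hpa
      by_contra hc2
      refine hnoB p hpa (not_lt.mp hc2) ?_
      by_contra hc3
      exact hu p hp (hpa.trans hau) ⟨not_le.mp hc3, hsqa p hpa⟩
    obtain ⟨d, hd, h1, h2⟩ := mid_divisor a Y hY1 (not_lt.mp hcon) hpa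
    exact hnoB d hd h1 (h2.trans hYP)
  have hba : (b : ℝ) * a ^ 2 ≤ Y * Y * Y := by
    have h0 : (0 : ℝ) ≤ a := Nat.cast_nonneg a
    have h0' : (0 : ℝ) ≤ b := Nat.cast_nonneg b
    have : (a : ℝ) ^ 2 ≤ Y * Y := by nlinarith
    calc (b : ℝ) * a ^ 2 ≤ Y * (Y * Y) := by gcongr
      _ = _ := by ring
  have hc0 : (0 : ℝ) ≤ c := Nat.cast_nonneg c
  by_cases hw1 : w = 1
  · refine ⟨c, hc, hdv c ⟨b * a ^ 2 * w, by rw [hNe]; ring⟩, hcopa c (hcu.trans huG), Or.inl ?_⟩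
    rw [hNr, hNe, hw1, h3]
    push_cast
    nlinarith
  obtain ⟨p, hp, hpw⟩ := Nat.exists_prime_and_dvd hw1
  obtain ⟨hPp, hp2⟩ := hw p hp hpw
  have hpprim : ∀ q : ℕ, q.Prime → q ∣ p → P < q := by
    intro q hq hd
    rwa [(Nat.prime_dvd_prime_iff_eq hq hp).mp hd]
  have hbig : P * P * P < N := by
    obtain ⟨E, hE⟩ := hp2
    have h1 := big_of_not_PC hC p 2 E (Or.inl rfl) hp.one_lt hpprim (by rw [← hNdef, hE]; ring)
    rw [hE]
    push_cast
    have : P * P < (p : ℝ) ^ 2 := by nlinarith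
    have hP0 : 0 < P := by linarith
    calc P * P * P < (p : ℝ) ^ 2 * P := by gcongr
      _ ≤ (p : ℝ) ^ 2 * E := by gcongr
  have hno4 : ∀ z : ℕ, z ^ 2 ∣ N → P * P < z → (∀ q : ℕ, q.Prime → q ∣ z → P < q) → False := by
    intro z hz hz2 hq
    obtain ⟨E, hE⟩ := hz
    have hz1 : 1 < z := by
      have : (1 : ℝ) < z := by nlinarith
      exact_mod_cast this
    have h1 := big_of_not_PC hC z 2 E (Or.inl rfl) hz1 hq (by rw [← hNdef, hE]; ring)
    rw [hNr, h10, hE] at hsz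
    push_cast at hsz
    have hP0 : 0 < P := by linarith
    have h2 : (P * P) ^ 2 < (z : ℝ) ^ 2 := by gcongr
    have h5 : P * (P * P) ^ 2 < E * (z : ℝ) ^ 2 := by
      apply mul_lt_mul'' h1 h2 hP0.le (by positivity)
    linarith
  have huniq : ∀ q : ℕ, q.Prime → q ∣ w → q = p := by
    intro q hq hqw
    by_contra hne
    obtain ⟨hPq, hq2⟩ := hw q hq hqw
    have hcop : Nat.Coprime (p ^ 2) (q ^ 2) :=
      Nat.Coprime.pow 2 2 ((Nat.coprime_primes hp hq).mpr (Ne.symm hne))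
    refine hno4 (p * q) ?_ ?_ ?_
    · rw [mul_pow]
      exact hcop.mul_dvd_of_dvd_of_dvd hp2 hq2
    · push_cast
      exact mul_lt_mul'' hPp hPq (by linarith) (by linarith)
    · intro x hx hd
      rcases (Nat.Prime.dvd_mul hx).mp hd with h | h
      · exact hpprim x hx h
      · rwa [(Nat.prime_dvd_prime_iff_eq hx hq).mp h]
  have hwk : w = p ^ (w.primeFactorsList.length) :=
    Nat.eq_prime_pow_of_unique_prime_dvd hw0 (fun {q} hq hd => huniq q hq hd)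
  generalize w.primeFactorsList.length = k at hwk
  have hpu : ¬ p ∣ u := fun h => hu p hp h ⟨hPp, hp2⟩
  have hpb : ¬ p ∣ b := fun h => hG p hp (hpw.trans hwG) (hb p hp h)
  have hk2 : 2 ≤ k := by
    have hcop : Nat.Coprime (p ^ 2) (b * u) := by
      apply Nat.Coprime.pow_left
      rw [Nat.Prime.coprime_iff_not_dvd hp]
      intro h
      rcases (Nat.Prime.dvd_mul hp).mp h with h | h
      · exact hpb h
      · exact hpu h
    have h1 : p ^ 2 ∣ (b * u) * w := by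
      have : N = (b * u) * w := by rw [hbG, hwu]; ring
      rw [← this]; exact hp2
    have h2 := hcop.dvd_of_dvd_mul_left h1
    rw [hwk] at h2
    exact (Nat.pow_dvd_pow_iff_le_right hp.one_lt).mp h2
  have hk3 : k ≤ 3 := by
    by_contra hcon
    refine hno4 (p ^ 2) ?_ ?_ ?_
    · rw [← pow_mul]
      have h1 : p ^ (2 * 2) ∣ w := by rw [hwk]; exact pow_dvd_pow p (by omega)
      exact h1.trans ⟨b * a ^ 2 * c, by rw [hNe]; ring⟩
    · push_cast
      nlinarith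
    · intro x hx hd
      exact hpprim x hx (hx.dvd_of_dvd_pow hd)
  have hE := big_of_not_PC hC p k (b * a ^ 2 * c) (by omega) hp.one_lt hpprim
    (by rw [← hNdef, hNe, hwk])
  have hcp : Nat.Coprime c p := by
    apply Nat.Coprime.symm
    rw [Nat.Prime.coprime_iff_not_dvd hp]
    exact fun h => hpu (h.trans hcu)
  have hcpG : c * p ∣ G := hcp.mul_dvd_of_dvd_of_dvd (hcu.trans huG) (hpw.trans hwG)
  refine ⟨c * p, (Nat.squarefree_mul hcp).mpr ⟨hc, hp.squarefree⟩,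
    hdv _ (hcpG.trans ⟨b, by rw [hbG]; ring⟩), hcopa _ hcpG, Or.inr ⟨by rw [hNr, h6]; exact hbig, ?_⟩⟩
  push_cast at hE ⊢
  have hY3 : 0 < Y * Y * Y := by positivity
  have h7 : P ≤ (Y * Y * Y) * c := by nlinarith
  have h8 : P * P ≤ (c * p) * (Y * Y * Y) := by
    calc P * P ≤ ((Y * Y * Y) * c) * p := by
          apply mul_le_mul h7 hPp.le (by linarith) (by positivity)
      _ = _ := by ring
  rw [← h4] at h8
  exact le_of_mul_le_mul_right h8 hY3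

end Pool.Agent.MP_542436_nt.H5
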