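import Mathlib

set_option autoImplicit false

namespace Pool.Agent.MP_542436_nt.H5

open Polynomial

/-- The binary form of degree `r` attached to `g`. -/
def hv (g : ℤ[X]) (r : ℕ) (t : ℤ × ℤ) : ℤ :=
  ∑ k ∈ Finset.range (r + 1), g.coeff k * t.1 ^ k * t.2 ^ (r - k)

/-- The determinant of two integer vectors. -/
def dt (t u : ℤ × ℤ) : ℤ := t.1 * u.2 - t.2 * u.1

/-- Primitive integer vectors of sup norm at most `B`. -/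
noncomputable def box (B : ℕ) : Finset (ℤ × ℤ) :=
  (Finset.Icc (-(B : ℤ)) B ×ˢ Finset.Icc (-(B : ℤ)) B).filter (fun t => Int.gcd t.1 t.2 = 1)

/-- Admissible data: a polynomial of degree `r` with coefficients polynomially bounded in `B`,
an integer `D` divisible by all bad primes, and content dividing `R`. -/
structure Adm (r c R B : ℕ) (g : ℤ[X]) (D : ℤ) : Prop where
  deg : g.natDegree ≤ r
  D_ne : D ≠ 0
  D_le : |D| ≤ (B : ℤ) ^ c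
  coeff_le : ∀ k, |g.coeff k| ≤ (B : ℤ) ^ c
  lc_dvd : g.coeff r ∣ D
  sep : ∃ U V : ℤ[X], U * g + V * derivative g = C D
  cont : ∀ κ : ℤ, (∀ k, κ ∣ g.coeff k) → κ ∣ (R : ℤ)

/-- `n` has a large divisor made of primes dividing `D`. -/
def PA (η : ℝ) (B : ℕ) (D n : ℤ) : Prop :=
  ∃ m : ℕ, (m : ℤ) ∣ n ∧ (∀ p : ℕ, p.Prime → p ∣ m → (p : ℤ) ∣ D) ∧ (B : ℝ) ^ η < m

/-- `n` has a square divisor `d ^ 2` of middle size, prime to `D`. -/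
def PB (η : ℝ) (B : ℕ) (D n : ℤ) : Prop :=
  ∃ d : ℕ, IsCoprime (d : ℤ) D ∧ (d : ℤ) ^ 2 ∣ n ∧ (B : ℝ) ^ η ≤ d ∧ (d : ℝ) ≤ (B : ℝ) ^ (2 - η)

/-- `n` is a small multiple of a square or a cube of a number with only huge prime factors. -/
def PC (η : ℝ) (B : ℕ) (_D n : ℤ) : Prop :=
  ∃ (e : ℤ) (z k : ℕ), (k = 2 ∨ k = 3) ∧ n = e * (z : ℤ) ^ k ∧ 1 < z ∧
    (∀ p : ℕ, p.Prime → p ∣ z → (B : ℝ) ^ (2 - η) < p) ∧ |(e : ℝ)| ≤ (B : ℝ) ^ (2 - η)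

open Classical in
/-- Few primitive vectors in the box have a value with property `P`, uniformly. -/
def Few (P : ℝ → ℕ → ℤ → ℤ → Prop) : Prop :=
  ∀ (r c R : ℕ) (η : ℝ), 1 ≤ r → 1 ≤ R → 0 < η → η ≤ 1 / 4 →
    ∃ δ : ℝ, 0 < δ ∧ ∃ B0 : ℕ, ∀ B : ℕ, B0 ≤ B → ∀ (g : ℤ[X]) (D : ℤ), Adm r c R B g D →
      (((box B).filter (fun t => hv g r t ≠ 0 ∧ P η B D (hv g r t))).card : ℝ) ≤
        (B : ℝ) ^ (2 - δ)

/-- Counting primitive vectors by slopes. -/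
def SlopeStmt : Prop :=
  ∀ (n B : ℕ) (W : ℝ), 0 < W → ∀ S : Finset (ℤ × ℤ), S ⊆ box B →
    (∀ f : Fin (n + 1) → ℤ × ℤ, (∀ j, f j ∈ S) → (∀ i j, i ≠ j → dt (f i) (f j) ≠ 0) →
      ∃ i j, W ≤ |(dt (f i) (f j) : ℝ)|) →
    (S.card : ℝ) ≤ 4 * n * (2 * (B : ℝ) ^ 2 / W + 1)

/-- `a ^ ω(n)` grows more slowly than any power of `n`. -/
def OmegaStmt : Prop :=
  ∀ (a θ : ℝ), 0 ≤ a → 0 < θ → ∃ K : ℝ, 0 < K ∧ ∀ n : ℕ, n ≠ 0 →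
    a ^ n.primeFactors.card ≤ K * (n : ℝ) ^ θ

open Classical in
/-- Few integers up to `Y` have all their prime factors dividing `D`. -/
def SmoothStmt : Prop :=
  ∀ θ : ℝ, 0 < θ → ∃ K : ℝ, 0 < K ∧ ∀ D Y : ℕ, D ≠ 0 →
    (((Finset.Icc 1 Y).filter (fun m => ∀ p : ℕ, p.Prime → p ∣ m → p ∣ D)).card : ℝ) ≤
      K * ((Y : ℝ) * D) ^ θ

/-- Primitive zeros of the form modulo a good modulus lie in few lattices. -/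
def ClassStmt : Prop :=
  ∀ (r : ℕ) (g : ℤ[X]) (D : ℤ) (m : ℕ), 0 < m → g.natDegree ≤ r → g.coeff r ∣ D →
    (∃ U V : ℤ[X], U * g + V * derivative g = C D) → IsCoprime (m : ℤ) D →
    ∃ Xs : Finset ℤ, Xs.card ≤ r ^ m.primeFactors.card ∧
      ∀ t : ℤ × ℤ, Int.gcd t.1 t.2 = 1 → (m : ℤ) ∣ hv g r t →
        ∃ x ∈ Xs, (m : ℤ) ∣ t.1 - x * t.2

/-- The determinant method on a line. -/
def LineStmt : Prop :=
  ∀ (r c : ℕ) (γ : ℝ), 0 < γ → ∃ B0 : ℕ, ∀ B : ℕ, B0 ≤ B →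
    ∀ (h : ℤ[X]) (e : ℤ) (k L : ℕ), (k = 2 ∨ k = 3) → h.natDegree ≤ r → 1 ≤ h.natDegree →
      (h.map (Int.castRingHom ℚ)).Separable → e ≠ 0 → |e| ≤ (B : ℤ) ^ c →
      (B : ℝ) ^ γ ≤ L → L ≤ 2 * B →
      ∀ S : Finset ℤ, (∀ y ∈ S, |y| ≤ (L : ℤ) ∧ ∃ z : ℕ, h.eval y = e * (z : ℤ) ^ k ∧
          z ≤ B ^ c ∧ ∀ p : ℕ, p.Prime → p ∣ z → B < p) →
        (S.card : ℝ) ≤ (L : ℝ) ^ ((2 : ℝ) / 3)

open Classical in
/-- The form is rarely small. -/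
def ArchStmt : Prop :=
  ∀ (r : ℕ) (η : ℝ), 0 < η → ∃ δ : ℝ, 0 < δ ∧ ∃ B0 : ℕ, ∀ B : ℕ, B0 ≤ B →
    ∀ g : ℤ[X], g.natDegree ≤ r → g.coeff r ≠ 0 →
      (((box B).filter (fun t =>
          |(hv g r t : ℝ)| < |(g.coeff r : ℝ)| * (B : ℝ) ^ ((r : ℝ) - η))).card : ℝ) ≤
        (B : ℝ) ^ (2 - δ)

/-- Bezout identity with a bounded integer. -/
def ResStmt : Prop :=
  ∀ (r : ℕ) (g h : ℤ[X]) (H : ℤ), g.natDegree ≤ r → h.natDegree ≤ r → 1 ≤ g.natDegree → 1 ≤ H →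
    (∀ k, |g.coeff k| ≤ H) → (∀ k, |h.coeff k| ≤ H) →
    IsCoprime (g.map (Int.castRingHom ℚ)) (h.map (Int.castRingHom ℚ)) →
    ∃ D : ℤ, D ≠ 0 ∧ |D| ≤ ((2 * r).factorial : ℤ) * H ^ (2 * r) ∧
      ∃ U V : ℤ[X], U * g + V * h = C D

/-- Integer polynomials in `s0, s1, t0, t1`. -/
abbrev MP := MvPolynomial (Fin 2 ⊕ Fin 2) ℤ

/-- The bidegree weights. -/
def wt : Fin 2 ⊕ Fin 2 → ℕ × ℕ :=
  Sum.elim (fun _ : Fin 2 => ((1, 0) : ℕ × ℕ)) (fun _ : Fin 2 => ((0, 1) : ℕ × ℕ))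

/-- Bihomogeneous of bidegree `(q, r)`. -/
def BiHom (F : MP) (q r : ℕ) : Prop := F.IsWeightedHomogeneous wt (q, r)

/-- The value at `(s, t)`. -/
noncomputable def ev (F : MP) (s t : ℤ × ℤ) : ℤ :=
  MvPolynomial.eval (Sum.elim ![s.1, s.2] ![t.1, t.2]) F

/-- The polynomial `F(s, (X, 1))`. -/
noncomputable def gt (F : MP) (s : ℤ × ℤ) : ℤ[X] :=
  MvPolynomial.aeval (Sum.elim ![C s.1, C s.2] ![(X : ℤ[X]), 1]) F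

/-- Basic facts on bihomogeneous polynomials. -/
def BasicStmt : Prop :=
  ∀ (F : MP) (q r : ℕ), BiHom F q r →
    (∀ s, (gt F s).natDegree ≤ r) ∧ (∀ s t, hv (gt F s) r t = ev F s t) ∧
    (∀ s, (gt F s).coeff r = ev F s (1, 0)) ∧
    ∃ K : ℕ, 1 ≤ K ∧ ∀ (A : ℕ) (s : ℤ × ℤ), |s.1| ≤ A → |s.2| ≤ A →
      (∀ k, |(gt F s).coeff k| ≤ (K : ℤ) * (A : ℤ) ^ q) ∧
      ∀ (B : ℕ) (t : ℤ × ℤ), |t.1| ≤ B → |t.2| ≤ B →
        |ev F s t| ≤ (K : ℤ) * (A : ℤ) ^ q * (B : ℤ) ^ r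

/-- Exchanging the two factors, and shearing. -/
def SymStmt : Prop :=
  (∃ sw : MP ≃ₐ[ℤ] MP, (∀ F s t, ev (sw F) t s = ev F s t) ∧
    ∀ F q r, BiHom F q r → BiHom (sw F) r q) ∧
  (∀ a b : ℤ, ∃ sh : MP ≃ₐ[ℤ] MP,
    (∀ F s t, ev (sh F) s t = ev F (s.1, s.2 + a * s.1) (t.1, t.2 + b * t.1)) ∧
    ∀ F q r, BiHom F q r → BiHom (sh F) q r) ∧
  (∀ (n : ℕ) (F : Fin n → MP) (q r : Fin n → ℕ), (∀ i, F i ≠ 0) →
    (∀ i, BiHom (F i) (q i) (r i)) → ∃ a b : ℤ, ∀ i, ev (F i) (1, a) (1, b) ≠ 0)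

/-- Almost all fibres meet an irreducible curve transversally. -/
def SepStmt : Prop :=
  ∀ (F : MP) (q r : ℕ), Irreducible F → BiHom F q r → 1 ≤ r → ev F (1, 0) (1, 0) ≠ 0 →
    ∃ Z : Finset (ℤ × ℤ), ∀ s : ℤ × ℤ, Int.gcd s.1 s.2 = 1 → s ∉ Z →
      (gt F s).coeff r ≠ 0 ∧ ((gt F s).map (Int.castRingHom ℚ)).Separable

/-- Almost all fibres avoid the intersection of two distinct irreducible curves. -/
def CopStmt : Prop :=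
  ∀ (F G : MP) (q r q' r' : ℕ), Irreducible F → Irreducible G → ¬ Associated F G →
    BiHom F q r → BiHom G q' r' →
    ∃ Z : Finset (ℤ × ℤ), ∀ s : ℤ × ℤ, Int.gcd s.1 s.2 = 1 → s ∉ Z →
      IsCoprime ((gt F s).map (Int.castRingHom ℚ)) ((gt G s).map (Int.castRingHom ℚ))

/-- The content of the fibre polynomial is bounded. -/
def ContStmt : Prop :=
  ∀ (F : MP) (q r : ℕ), Irreducible F → BiHom F q r → 1 ≤ r → ev F (1, 0) (1, 0) ≠ 0 →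
    ∃ R : ℕ, 1 ≤ R ∧ ∀ s : ℤ × ℤ, Int.gcd s.1 s.2 = 1 →
      ∀ κ : ℤ, (∀ k, κ ∣ (gt F s).coeff k) → κ ∣ (R : ℤ)

end Pool.Agent.MP_542436_nt.H5
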