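import Pool.Agent.MP_542436_nt.H5.Box

set_option autoImplicit false

namespace Pool.Agent.MP_542436_nt.H5

open Classical in
theorem Fam.both {n : ℕ} (H : All) (P : Fam n) : ∃ Z : Finset (ℤ × ℤ), ∀ ε : ℝ, 0 < ε →
    ∃ δ : ℝ, 0 < δ ∧ δ ≤ 1 ∧ ∃ B0 : ℕ, ∀ A B : ℕ, 1 ≤ A → 1 ≤ B → B0 ≤ max A B →
      (((box A ×ˢ box B).filter (fun st => st.1 ∉ Z ∧ st.2 ∉ Z ∧
        ∏ i, ev (P.F i) st.1 st.2 ≠ 0 ∧
        (rad (∏ i, ev (P.F i) st.1 st.2) : ℝ) < (A : ℝ) ^ ((∑ i, (P.q i : ℝ)) - 2) *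
          (B : ℝ) ^ ((∑ i, (P.r i : ℝ)) - 2) * ((max A B : ℕ) : ℝ) ^ (-ε))).card : ℝ) ≤
        ((A : ℝ) * B) ^ (2 - δ) := by
  obtain ⟨P', hq, hr, hev⟩ := P.swap H
  obtain ⟨Z1, hZ1⟩ := P.boxThm H
  obtain ⟨Z2, hZ2⟩ := P'.boxThm H
  refine ⟨Z1 ∪ Z2, fun ε hε => ?_⟩
  obtain ⟨δ1, hδ1, B1, h1⟩ := hZ1 ε hε
  obtain ⟨δ2, hδ2, B2, h2⟩ := hZ2 ε hε
  have key : ∀ (A B δ δ' : ℝ), 1 ≤ A → A ≤ B → 0 < δ' → 2 * δ' ≤ δ →
      A ^ 2 * B ^ (2 - δ) ≤ (A * B) ^ (2 - δ') := by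
    intro A B δ δ' hA hAB h0 h
    have hA0 : 0 < A := by linarith
    have hB0 : 0 < B := by linarith
    rw [Real.mul_rpow hA0.le hB0.le]
    have e1 : B ^ (2 - δ) ≤ B ^ (-δ' + (2 - δ')) :=
      Real.rpow_le_rpow_of_exponent_le (by linarith) (by linarith)
    have e2 : B ^ (-δ') ≤ A ^ (-δ') := Real.rpow_le_rpow_of_nonpos hA0 hAB (by linarith)
    rw [Real.rpow_add hB0] at e1
    calc A ^ 2 * B ^ (2 - δ) ≤ A ^ 2 * (A ^ (-δ') * B ^ (2 - δ')) := by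
          refine mul_le_mul_of_nonneg_left (e1.trans ?_) (by positivity)
          gcongr
      _ = _ := by rw [sub_eq_add_neg 2 δ', Real.rpow_add hA0, Real.rpow_two]; ring
  refine ⟨min 1 (min δ1 δ2 / 2), by positivity, min_le_left _ _, max B1 B2,
    fun A B hA hB hmax => ?_⟩
  have hA1 : (1 : ℝ) ≤ A := by exact_mod_cast hA
  have hB1 : (1 : ℝ) ≤ B := by exact_mod_cast hB
  have hm := min_le_right 1 (min δ1 δ2 / 2)
  rcases le_total A B with hAB | hAB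
  · rw [max_eq_right hAB] at hmax ⊢
    refine le_trans ?_ ((h1 A B hA hAB (by omega)).trans (key _ _ _ _ hA1 (by exact_mod_cast hAB)
      (by positivity) (by linarith [min_le_left δ1 δ2])))
    apply Nat.cast_le.mpr
    apply Finset.card_le_card
    intro st h
    simp only [Finset.mem_filter] at h ⊢
    refine ⟨h.1, fun h' => h.2.1 (Finset.mem_union_left _ h'), h.2.2.2.1, h.2.2.2.2.trans_eq ?_⟩
    rw [mul_assoc, ← Real.rpow_add (by linarith), sub_eq_add_neg _ ε]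
  · rw [max_eq_left hAB] at hmax ⊢
    rw [mul_comm (A : ℝ) B]
    refine le_trans ?_ ((h2 B A hB hAB (by omega)).trans (key _ _ _ _ hB1 (by exact_mod_cast hAB)
      (by positivity) (by linarith [min_le_right δ1 δ2])))
    apply Nat.cast_le.mpr
    apply Finset.card_le_card_of_injOn Prod.swap _ (Prod.swap_injective.injOn)
    intro st h
    simp only [Finset.coe_filter, Set.mem_ofPred_eq, Finset.mem_product, Prod.fst_swap,
      Prod.snd_swap, hev, hq, hr] at h ⊢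
    refine ⟨⟨h.1.2, h.1.1⟩, fun h' => h.2.2.1 (Finset.mem_union_right _ h'), h.2.2.2.1,
      h.2.2.2.2.trans_eq ?_⟩
    rw [sub_eq_add_neg _ ε, Real.rpow_add (by linarith)]
    ring

/-- The height of an integer vector. -/
def ht (s : ℤ × ℤ) : ℕ := max s.1.natAbs s.2.natAbs

theorem ht_pos {s : ℤ × ℤ} (hs : Int.gcd s.1 s.2 = 1) : 1 ≤ ht s := by
  by_contra h
  unfold ht at h
  have h1 : s.1 = 0 := by omega
  have h2 : s.2 = 0 := by omega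
  rw [h1, h2] at hs
  simp at hs

theorem mem_box_of_ht {s : ℤ × ℤ} {A : ℕ} (hs : Int.gcd s.1 s.2 = 1) (h : ht s ≤ A) :
    s ∈ box A := by
  rw [mem_box]
  unfold ht at h
  refine ⟨?_, ?_, hs⟩ <;> rw [← Int.natCast_natAbs] <;> omega

theorem rpow_cmp (u v c x : ℝ) (hu : 0 < u) (hv : 0 < v) (hc : 1 ≤ c) (h1 : u ≤ c * v)
    (h2 : v ≤ c * u) : u ^ x ≤ c ^ |x| * v ^ x := by
  have hc0 : 0 < c := by linarith
  rcases le_total 0 x with hx | hx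
  · rw [abs_of_nonneg hx, ← Real.mul_rpow hc0.le hv.le]
    exact Real.rpow_le_rpow hu.le h1 hx
  · rw [abs_of_nonpos hx]
    have h3 : (c * u) ^ x ≤ v ^ x := Real.rpow_le_rpow_of_nonpos hv h2 hx
    rw [Real.mul_rpow hc0.le hu.le] at h3
    have h4 : c ^ (-x) * c ^ x = 1 := by rw [← Real.rpow_add hc0]; simp
    calc u ^ x = c ^ (-x) * (c ^ x * u ^ x) := by rw [← mul_assoc, h4, one_mul]
      _ ≤ _ := by gcongr

theorem log_bound (θ : ℝ) (hθ : 0 < θ) : ∃ K : ℝ, 0 < K ∧ ∀ (L : ℕ) (T : ℝ), 1 ≤ T →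
    (2 : ℝ) ^ L ≤ T → ((L : ℝ) + 2) ≤ K * T ^ θ := by
  have h2 : 0 < Real.log 2 := Real.log_pos (by norm_num)
  refine ⟨1 / (θ * Real.log 2) + 2, by positivity, fun L T hT hL => ?_⟩
  have h1 : (L : ℝ) * Real.log 2 ≤ Real.log T := by
    rw [← Real.log_pow]
    exact Real.log_le_log (by positivity) hL
  have h3 : Real.log T ≤ T ^ θ / θ := Real.log_le_rpow_div (by linarith) hθ
  have h4 : 1 ≤ T ^ θ := Real.one_le_rpow hT hθ.le
  have h5 : (L : ℝ) ≤ 1 / (θ * Real.log 2) * T ^ θ := by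
    rw [div_mul_eq_mul_div, one_mul, le_div_iff₀ (by positivity)]
    rw [le_div_iff₀ hθ] at h3
    nlinarith
  nlinarith

/-- The exceptional set. -/
def Exc {n : ℕ} (F : Fin (n + 1) → MP) (Z : Finset (ℤ × ℤ)) (x y K0 T : ℝ) :
    Set ((ℤ × ℤ) × (ℤ × ℤ)) :=
  {st | Int.gcd st.1.1 st.1.2 = 1 ∧ Int.gcd st.2.1 st.2.2 = 1 ∧ st.1 ∉ Z ∧ st.2 ∉ Z ∧
    ∏ i, ev (F i) st.1 st.2 ≠ 0 ∧ (ht st.1 : ℝ) * ht st.2 ≤ T ∧
    (rad (∏ i, ev (F i) st.1 st.2) : ℝ) < K0 * (ht st.1 : ℝ) ^ x * (ht st.2 : ℝ) ^ y}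

theorem Fam.dyadic {n : ℕ} (H : All) (P : Fam n) : ∃ Z : Finset (ℤ × ℤ), ∀ ε : ℝ, 0 < ε →
    ∃ δ : ℝ, 0 < δ ∧ δ ≤ 1 ∧ ∀ K0 : ℝ, 0 < K0 → ∃ K : ℝ, 0 < K ∧ ∀ T : ℝ, 1 ≤ T →
      ∃ E : Finset ((ℤ × ℤ) × (ℤ × ℤ)), (E.card : ℝ) ≤ K * T ^ (2 - δ) ∧
        Exc P.F Z ((∑ i, (P.q i : ℝ)) - 2 - ε) ((∑ i, (P.r i : ℝ)) - 2 - ε) K0 T ⊆ E := by
  classical
  obtain ⟨Z, hZ⟩ := P.both H
  refine ⟨Z, fun ε hε => ?_⟩
  obtain ⟨δ, hδ, hδ1, B0, h⟩ := hZ (ε / 2) (by positivity)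
  refine ⟨δ / 2, by positivity, by linarith, fun K0 hK0 => ?_⟩
  set Q := (∑ i, (P.q i : ℝ)) - 2 with hQ
  set R := (∑ i, (P.r i : ℝ)) - 2 with hR
  obtain ⟨B1, hB1⟩ := ev_pow (K0 * 2 ^ |Q - ε| * 2 ^ |R - ε|) (ε / 2) (by positivity)
  obtain ⟨K1, hK1, hlog⟩ := log_bound (δ / 4) (by positivity)
  set M : ℕ := max B0 B1 with hM
  refine ⟨K1 ^ 2 * (16 + 81 * (M : ℝ) ^ 4), by positivity, fun T hT => ?_⟩
  have hT0 : 0 < T := by linarith
  set L := Nat.log 2 ⌊T⌋₊ with hL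
  have hfl : 1 ≤ ⌊T⌋₊ := Nat.le_floor (by exact_mod_cast hT)
  have hLT : (2 : ℝ) ^ L ≤ T := by
    have := Nat.pow_log_le_self 2 (show ⌊T⌋₊ ≠ 0 by omega)
    exact le_trans (by exact_mod_cast this) (Nat.floor_le hT0.le)
  let W : ℕ × ℕ → Finset ((ℤ × ℤ) × (ℤ × ℤ)) := fun ij =>
    (box (2 ^ ij.1) ×ˢ box (2 ^ ij.2)).filter (fun st =>
      (((2 ^ ij.1 : ℕ) : ℝ) * (2 ^ ij.2 : ℕ) ≤ 4 * T) ∧ (M ≤ max (2 ^ ij.1) (2 ^ ij.2) →
        st.1 ∉ Z ∧ st.2 ∉ Z ∧ ∏ i, ev (P.F i) st.1 st.2 ≠ 0 ∧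
        (rad (∏ i, ev (P.F i) st.1 st.2) : ℝ) < ((2 ^ ij.1 : ℕ) : ℝ) ^ Q *
          ((2 ^ ij.2 : ℕ) : ℝ) ^ R * ((max (2 ^ ij.1) (2 ^ ij.2) : ℕ) : ℝ) ^ (-(ε / 2))))
  have hT1 : 1 ≤ T ^ (2 - δ) := Real.one_le_rpow hT (by linarith)
  have hW : ∀ ij, ((W ij).card : ℝ) ≤ (16 + 81 * (M : ℝ) ^ 4) * T ^ (2 - δ) := by
    rintro ⟨i, j⟩
    have hi : 1 ≤ 2 ^ i := Nat.one_le_two_pow
    have hj : 1 ≤ 2 ^ j := Nat.one_le_two_pow
    by_cases h4 : ((2 ^ i : ℕ) : ℝ) * (2 ^ j : ℕ) ≤ 4 * T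
    swap
    · have : W (i, j) = ∅ := Finset.filter_eq_empty_iff.mpr (fun st _ hc => h4 hc.1)
      rw [this, Finset.card_empty, Nat.cast_zero]
      positivity
    by_cases hMl : M ≤ max (2 ^ i) (2 ^ j)
    · refine le_trans ?_ ((h _ _ hi hj (by omega)).trans (?_ : _ ≤ _))
      · apply Nat.cast_le.mpr
        apply Finset.card_le_card
        intro st hst
        simp only [W, Finset.mem_filter] at hst ⊢
        exact ⟨hst.1, hst.2.2 hMl⟩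
      · calc _ ≤ (4 * T) ^ (2 - δ) := Real.rpow_le_rpow (by positivity) h4 (by linarith)
          _ = (4 : ℝ) ^ (2 - δ) * T ^ (2 - δ) := Real.mul_rpow (by norm_num) hT0.le
          _ ≤ (4 : ℝ) ^ (2 : ℝ) * T ^ (2 - δ) := by
              have := Real.rpow_le_rpow_of_exponent_le (show (1 : ℝ) ≤ 4 by norm_num)
                (show 2 - δ ≤ 2 by linarith)
              gcongr
          _ ≤ _ := by
              rw [Real.rpow_two]
              have : (0 : ℝ) ≤ (M : ℝ) ^ 4 := by positivity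
              nlinarith
    · have e1 : ((W (i, j)).card : ℝ) ≤ (box M).card * (box M).card := by
        have : (W (i, j)).card ≤ (box M ×ˢ box M).card := Finset.card_le_card
          ((Finset.filter_subset _ _).trans (Finset.product_subset_product
            (box_mono (by simp only; omega)) (box_mono (by simp only; omega))))
        rw [Finset.card_product] at this
        exact_mod_cast this
      have e2 := card_box_le M (by omega)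
      have e3 : ((box M).card : ℝ) * (box M).card ≤ (9 * (M : ℝ) ^ 2) * (9 * (M : ℝ) ^ 2) :=
        mul_le_mul e2 e2 (by positivity) (by positivity)
      have : (0 : ℝ) ≤ (M : ℝ) ^ 4 := by positivity
      nlinarith
  refine ⟨(Finset.range (L + 2) ×ˢ Finset.range (L + 2)).biUnion W, ?_, ?_⟩
  · refine le_trans (Nat.cast_le.mpr Finset.card_biUnion_le) ?_
    push_cast
    refine (Finset.sum_le_sum (fun ij _ => hW ij)).trans ?_
    simp only [Finset.sum_const, Finset.card_product, Finset.card_range, nsmul_eq_mul]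
    push_cast
    have e1 := hlog L T hT hLT
    have e2 : T ^ (2 - δ / 2) = T ^ (δ / 4) * T ^ (δ / 4) * T ^ (2 - δ) := by
      rw [← Real.rpow_add hT0, ← Real.rpow_add hT0]; congr 1; ring
    calc ((L : ℝ) + 2) * (L + 2) * ((16 + 81 * (M : ℝ) ^ 4) * T ^ (2 - δ))
        ≤ (K1 * T ^ (δ / 4)) * (K1 * T ^ (δ / 4)) * ((16 + 81 * (M : ℝ) ^ 4) * T ^ (2 - δ)) := by
          gcongr
      _ = _ := by rw [e2]; ring
  · rintro ⟨s, t⟩ ⟨hs, ht', hsZ, htZ, hne, hT', hlt⟩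
    simp only at hs ht' hsZ htZ hne hT' hlt
    have hs1 := ht_pos hs
    have ht1 := ht_pos ht'
    have hs1r : (1 : ℝ) ≤ ht s := by exact_mod_cast hs1
    have ht1r : (1 : ℝ) ≤ ht t := by exact_mod_cast ht1
    have dy : ∀ u : ℕ, 1 ≤ u → (u : ℝ) ≤ T → Nat.log 2 u + 1 < L + 2 ∧ u ≤ 2 ^ (Nat.log 2 u + 1) ∧
        2 ^ (Nat.log 2 u + 1) ≤ 2 * u := by
      intro u hu huT
      refine ⟨?_, (Nat.lt_pow_succ_log_self (by norm_num) u).le, ?_⟩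
      · have := Nat.log_mono_right (b := 2) (Nat.le_floor huT)
        omega
      · have := Nat.pow_log_le_self 2 (show u ≠ 0 by omega)
        rw [pow_succ]; omega
    obtain ⟨a1, a2, a3⟩ := dy (ht s) hs1 (by nlinarith)
    obtain ⟨b1, b2, b3⟩ := dy (ht t) ht1 (by nlinarith)
    rw [Finset.mem_coe, Finset.mem_biUnion]
    refine ⟨(Nat.log 2 (ht s) + 1, Nat.log 2 (ht t) + 1), Finset.mem_product.mpr
      ⟨Finset.mem_range.mpr a1, Finset.mem_range.mpr b1⟩, ?_⟩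
    simp only [W, Finset.mem_filter, Finset.mem_product]
    generalize 2 ^ (Nat.log 2 (ht s) + 1) = A at a2 a3 ⊢
    generalize 2 ^ (Nat.log 2 (ht t) + 1) = B at b2 b3 ⊢
    have a2r : (ht s : ℝ) ≤ A := by exact_mod_cast a2
    have a3r : (A : ℝ) ≤ 2 * ht s := by exact_mod_cast a3
    have b2r : (ht t : ℝ) ≤ B := by exact_mod_cast b2
    have b3r : (B : ℝ) ≤ 2 * ht t := by exact_mod_cast b3
    have hA0 : (0 : ℝ) < A := by linarith
    have hB0 : (0 : ℝ) < B := by linarith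
    refine ⟨⟨mem_box_of_ht hs a2, mem_box_of_ht ht' b2⟩, ?_, fun hMl => ⟨hsZ, htZ, hne, ?_⟩⟩
    · calc (A : ℝ) * B ≤ (2 * ht s) * (2 * ht t) := by gcongr
        _ ≤ _ := by linarith
    · refine hlt.trans_le ?_
      have c1 := rpow_cmp (ht s) A 2 (Q - ε) (by linarith) hA0 (by norm_num) (by linarith) a3r
      have c2 := rpow_cmp (ht t) B 2 (R - ε) (by linarith) hB0 (by norm_num) (by linarith) b3r
      have c3 := hB1 (max A B) (by omega)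
      have hm1 : (1 : ℝ) ≤ ((max A B : ℕ) : ℝ) := by exact_mod_cast (show 1 ≤ max A B by omega)
      have hm0 : (0 : ℝ) < ((max A B : ℕ) : ℝ) := by linarith
      have c4 : ((max A B : ℕ) : ℝ) ≤ A * B := by
        have : max A B ≤ A * B := max_le (Nat.le_mul_of_pos_right _ (by omega))
          (Nat.le_mul_of_pos_left _ (by omega))
        exact_mod_cast this
      have c5 : (A : ℝ) ^ (-ε) * (B : ℝ) ^ (-ε) ≤ ((max A B : ℕ) : ℝ) ^ (-ε) := by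
        rw [← Real.mul_rpow hA0.le hB0.le]
        exact Real.rpow_le_rpow_of_nonpos hm0 c4 (by linarith)
      calc K0 * (ht s : ℝ) ^ (Q - ε) * (ht t : ℝ) ^ (R - ε)
          ≤ K0 * (2 ^ |Q - ε| * (A : ℝ) ^ (Q - ε)) * (2 ^ |R - ε| * (B : ℝ) ^ (R - ε)) := by
            gcongr
        _ = (A : ℝ) ^ Q * (B : ℝ) ^ R * ((K0 * 2 ^ |Q - ε| * 2 ^ |R - ε|) *
              ((A : ℝ) ^ (-ε) * (B : ℝ) ^ (-ε))) := by
            rw [sub_eq_add_neg Q, sub_eq_add_neg R, Real.rpow_add hA0, Real.rpow_add hB0]; ring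
        _ ≤ (A : ℝ) ^ Q * (B : ℝ) ^ R * (((max A B : ℕ) : ℝ) ^ (ε / 2) *
              ((max A B : ℕ) : ℝ) ^ (-ε)) := by gcongr
        _ = _ := by rw [← Real.rpow_add hm0]; congr 2; ring

end Pool.Agent.MP_542436_nt.H5
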