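import Pool.Agent.MP_542436_nt.H5.Dyad
import Pool.Agent.MP_542436_nt.H1.FewC
import Pool.Agent.MP_542436_nt.H19.Line
import Pool.Agent.MP_542436_nt.H20.S6
import Pool.Agent.MP_542436_nt.H22.FewA
import Pool.Agent.MP_542436_nt.H50.Elim
import Pool.Agent.MP_542436_nt.H87.S2
import Pool.Agent.MP_542436_nt.H91.S3

set_option autoImplicit false

namespace Pool.Agent.MP_542436_nt.H5

theorem all : All where
  fewA := H22.fewA H22.slope H87.smooth
  fewB := H91.fewB H22.slope H87.omega H87.cls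
  fewC := H1.fewC H87.omega H87.smooth H87.cls H19.line
  arch := H91.arch
  res := H20.res
  basic := H20.basic
  sym := H20.sym
  sep := H50.sepS H20.basic
  cop := H50.cop H20.basic
  cont := H50.cont H20.basic

/-- The shear of integer vectors. -/
def shr (a : ℤ) (s : ℤ × ℤ) : ℤ × ℤ := (s.1, s.2 + a * s.1)

theorem shr_shr (a : ℤ) (s : ℤ × ℤ) : shr a (shr (-a) s) = s := by
  simp [shr]

theorem gcd_shr (a : ℤ) (s : ℤ × ℤ) (hs : Int.gcd s.1 s.2 = 1) :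
    Int.gcd (shr a s).1 (shr a s).2 = 1 := by
  rw [← Int.isCoprime_iff_gcd_eq_one] at hs ⊢
  exact hs.add_mul_right_right a

theorem ht_shr (a : ℤ) (s : ℤ × ℤ) : (ht (shr a s) : ℝ) ≤ (1 + |(a : ℝ)|) * ht s := by
  have h1 : ht (shr a s) ≤ (1 + a.natAbs) * ht s := by
    unfold ht shr
    simp only
    have e1 : s.1.natAbs ≤ max s.1.natAbs s.2.natAbs := le_max_left _ _
    have e2 : s.2.natAbs ≤ max s.1.natAbs s.2.natAbs := le_max_right _ _
    have e3 := Int.natAbs_add_le s.2 (a * s.1)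
    rw [Int.natAbs_mul] at e3
    have e4 : a.natAbs * s.1.natAbs ≤ a.natAbs * max s.1.natAbs s.2.natAbs :=
      Nat.mul_le_mul_left _ e1
    rw [add_mul, one_mul]
    omega
  have h2 : ((a.natAbs : ℕ) : ℝ) = |(a : ℝ)| := by rw [Nat.cast_natAbs]; push_cast; rfl
  rw [← h2]
  exact_mod_cast h1

theorem main (n : ℕ) (F : Fin (n + 1) → MP) (q r : Fin (n + 1) → ℕ)
    (hirr : ∀ i, Irreducible (F i)) (hne : ∀ i j, i ≠ j → ¬ Associated (F i) (F j))
    (hhom : ∀ i, BiHom (F i) (q i) (r i)) (h0 : q 0 + r 0 ≤ 8 ∧ q 0 ≤ 6 ∧ r 0 ≤ 6)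
    (hi : ∀ i, i ≠ 0 → q i + r i ≤ 5) :
    ∃ Z : Finset (ℤ × ℤ), ∀ ε : ℝ, 0 < ε → ∃ δ : ℝ, 0 < δ ∧ ∀ K0 : ℝ, 0 < K0 →
      ∃ K : ℝ, ∀ T : ℝ, 1 ≤ T → ∃ E : Finset ((ℤ × ℤ) × (ℤ × ℤ)),
        (E.card : ℝ) ≤ K * T ^ (2 - δ) ∧
        Exc F Z ((∑ i, (q i : ℝ)) - 2 - ε) ((∑ i, (r i : ℝ)) - 2 - ε) K0 T ⊆ E := by
  classical
  obtain ⟨a, b, hab⟩ := all.sym.2.2 (n + 1) F q r (fun i => (hirr i).ne_zero) hhom
  obtain ⟨sh, h1, h2⟩ := all.sym.2.1 a b
  let P : Fam n := ⟨fun i => sh (F i), q, r, fun i => (hirr i).map sh,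
    fun i j hij h => hne i j hij (by simpa using h.map sh.symm), fun i => h2 _ _ _ (hhom i), h0, hi,
    fun i => by rw [h1]; simpa using hab i⟩
  obtain ⟨Z, hZ⟩ := P.dyadic all
  refine ⟨Z.image (shr a) ∪ Z.image (shr b), fun ε hε => ?_⟩
  obtain ⟨δ, hδ, hδ1, h⟩ := hZ ε hε
  refine ⟨δ, hδ, fun K0 hK0 => ?_⟩
  set x := (∑ i, (q i : ℝ)) - 2 - ε with hx
  set y := (∑ i, (r i : ℝ)) - 2 - ε with hy
  set c := 1 + |(a : ℝ)| with hc
  set d := 1 + |(b : ℝ)| with hd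
  have hc1 : 1 ≤ c := by have := abs_nonneg (a : ℝ); linarith
  have hd1 : 1 ≤ d := by have := abs_nonneg (b : ℝ); linarith
  obtain ⟨K, hK, hT⟩ := h (K0 * c ^ |x| * d ^ |y|) (by positivity)
  refine ⟨K * (c * d) ^ (2 - δ), fun T hT1 => ?_⟩
  obtain ⟨E, hE, hsub⟩ := hT (c * d * T) (by nlinarith [mul_le_mul hc1 hd1 zero_le_one (by linarith)])
  refine ⟨E.image (fun st => (shr a st.1, shr b st.2)), ?_, ?_⟩
  · refine le_trans (Nat.cast_le.mpr Finset.card_image_le) (hE.trans_eq ?_)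
    rw [Real.mul_rpow (by positivity) (by linarith)]
    ring
  · rintro ⟨s, t⟩ ⟨hs, ht', hsZ, htZ, hnz, hT', hlt⟩
    simp only at hs ht' hsZ htZ hnz hT' hlt
    rw [Finset.mem_coe, Finset.mem_image]
    refine ⟨(shr (-a) s, shr (-b) t), hsub ?_, by simp only [shr_shr]⟩
    have hev : ∀ i, ev (P.F i) (shr (-a) s) (shr (-b) t) = ev (F i) s t := by
      intro i
      have := h1 (F i) (shr (-a) s) (shr (-b) t)
      rw [show ((shr (-a) s).1, (shr (-a) s).2 + a * (shr (-a) s).1) = s from shr_shr a s,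
        show ((shr (-b) t).1, (shr (-b) t).2 + b * (shr (-b) t).1) = t from shr_shr b t] at this
      exact this
    have gs := gcd_shr (-a) s hs
    have gt' := gcd_shr (-b) t ht'
    have u1 : (ht (shr (-a) s) : ℝ) ≤ c * ht s := by simpa using ht_shr (-a) s
    have u2 : (ht s : ℝ) ≤ c * ht (shr (-a) s) := by
      have := ht_shr a (shr (-a) s); rwa [shr_shr] at this
    have v1 : (ht (shr (-b) t) : ℝ) ≤ d * ht t := by simpa using ht_shr (-b) t
    have v2 : (ht t : ℝ) ≤ d * ht (shr (-b) t) := by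
      have := ht_shr b (shr (-b) t); rwa [shr_shr] at this
    have p1 : (0 : ℝ) < ht s := by exact_mod_cast ht_pos hs
    have p2 : (0 : ℝ) < ht t := by exact_mod_cast ht_pos ht'
    have p3 : (0 : ℝ) < ht (shr (-a) s) := by exact_mod_cast ht_pos gs
    have p4 : (0 : ℝ) < ht (shr (-b) t) := by exact_mod_cast ht_pos gt'
    refine ⟨gs, gt', fun hz => hsZ (Finset.mem_union_left _
      (Finset.mem_image.mpr ⟨_, hz, shr_shr a s⟩)), fun hz => htZ (Finset.mem_union_right _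
      (Finset.mem_image.mpr ⟨_, hz, shr_shr b t⟩)), ?_, ?_, ?_⟩
    · simp only [hev]; exact hnz
    · calc (ht (shr (-a) s) : ℝ) * ht (shr (-b) t) ≤ (c * ht s) * (d * ht t) := by gcongr
        _ = c * d * (ht s * ht t) := by ring
        _ ≤ _ := by gcongr
    · simp only [hev]
      refine hlt.trans_le ?_
      have c1 := rpow_cmp _ _ c x p1 p3 hc1 u2 u1
      have c2 := rpow_cmp _ _ d y p2 p4 hd1 v2 v1
      calc K0 * (ht s : ℝ) ^ x * (ht t : ℝ) ^ y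
          ≤ K0 * (c ^ |x| * (ht (shr (-a) s) : ℝ) ^ x) * (d ^ |y| * (ht (shr (-b) t) : ℝ) ^ y) := by
            gcongr
        _ = _ := by ring

theorem log_rad (N : ℤ) : Real.log (rad N) = ∑ p ∈ N.natAbs.primeFactors, Real.log p := by
  unfold rad
  push_cast
  exact Real.log_prod (fun p hp => by
    exact_mod_cast (Nat.prime_of_mem_primeFactors hp).ne_zero)

theorem rad_pos (N : ℤ) : 0 < rad N :=
  Finset.prod_pos (fun _ hp => (Nat.prime_of_mem_primeFactors hp).pos)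

theorem ht_cast (s : ℤ × ℤ) : (ht s : ℝ) = max |(s.1 : ℝ)| |(s.2 : ℝ)| := by
  unfold ht
  push_cast
  rw [Nat.cast_natAbs, Nat.cast_natAbs]
  push_cast
  rfl

end Pool.Agent.MP_542436_nt.H5
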