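import Pool.Agent.MP_542436_nt.H5.Defect

set_option autoImplicit false

namespace Pool.Agent.MP_542436_nt.H5

open Polynomial

open Classical in
/-- A uniformly small family of subsets of the box. -/
def Sm {α : Type} (ok : ℕ → α → Prop) (Bad : ℕ → α → ℤ × ℤ → Prop) : Prop :=
  ∃ δ : ℝ, 0 < δ ∧ ∃ B0 : ℕ, ∀ B : ℕ, B0 ≤ B → ∀ a, ok B a →
    (((box B).filter (Bad B a)).card : ℝ) ≤ (B : ℝ) ^ (2 - δ)

theorem ev_pow (K δ : ℝ) (hδ : 0 < δ) : ∃ B0 : ℕ, ∀ B : ℕ, B0 ≤ B → K ≤ (B : ℝ) ^ δ := by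
  have h := ((tendsto_rpow_atTop hδ).comp tendsto_natCast_atTop_atTop).eventually_ge_atTop K
  obtain ⟨B0, hB0⟩ := Filter.eventually_atTop.mp h
  exact ⟨B0, fun B hB => hB0 B hB⟩

theorem Sm.mono {α : Type} {ok ok' : ℕ → α → Prop} {P Q : ℕ → α → ℤ × ℤ → Prop} (h : Sm ok P)
    (hok : ∀ B a, ok' B a → ok B a) (hPQ : ∀ B a t, ok' B a → Q B a t → P B a t) : Sm ok' Q := by
  classical
  obtain ⟨δ, hδ, B0, h⟩ := h
  refine ⟨δ, hδ, B0, fun B hB a ha => le_trans ?_ (h B hB a (hok B a ha))⟩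
  apply Nat.cast_le.mpr
  apply Finset.card_le_card
  intro t ht
  rw [Finset.mem_filter] at ht ⊢
  exact ⟨ht.1, hPQ B a t ha ht.2⟩

theorem Sm.empty {α : Type} (ok : ℕ → α → Prop) : Sm ok (fun _ _ _ => False) := by
  refine ⟨1, one_pos, 0, fun B _ a _ => ?_⟩
  simp only [Finset.filter_false, Finset.card_empty, Nat.cast_zero]
  positivity

theorem Sm.or {α : Type} {ok : ℕ → α → Prop} {P Q : ℕ → α → ℤ × ℤ → Prop} (h : Sm ok P)
    (h' : Sm ok Q) : Sm ok (fun B a t => P B a t ∨ Q B a t) := by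
  classical
  obtain ⟨δ, hδ, B0, h⟩ := h
  obtain ⟨δ', hδ', B0', h'⟩ := h'
  have hm : 0 < min δ δ' / 2 := by positivity
  obtain ⟨B1, hB1⟩ := ev_pow 2 _ hm
  refine ⟨min δ δ' / 2, hm, max (max B0 B0') (max B1 1), fun B hB a ha => ?_⟩
  have e1 : B0 ≤ B := by omega
  have e2 : B0' ≤ B := by omega
  have e3 : B1 ≤ B := by omega
  have e4 : (1 : ℝ) ≤ B := by exact_mod_cast (show 1 ≤ B by omega)
  have h1 := h B e1 a ha
  have h2 := h' B e2 a ha
  have h3 := hB1 B e3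
  have h4 : (B : ℝ) ^ (2 - δ) ≤ (B : ℝ) ^ (2 - min δ δ') :=
    Real.rpow_le_rpow_of_exponent_le e4 (by linarith [min_le_left δ δ'])
  have h5 : (B : ℝ) ^ (2 - δ') ≤ (B : ℝ) ^ (2 - min δ δ') :=
    Real.rpow_le_rpow_of_exponent_le e4 (by linarith [min_le_right δ δ'])
  have h6 : (B : ℝ) ^ (2 - min δ δ' / 2) = (B : ℝ) ^ (min δ δ' / 2) * (B : ℝ) ^ (2 - min δ δ') := by
    rw [← Real.rpow_add (by linarith)]; congr 1; ring
  have h7 : (0 : ℝ) ≤ (B : ℝ) ^ (2 - min δ δ') := by positivity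
  have h8 : ((box B).filter (fun t => P B a t ∨ Q B a t)).card ≤
      ((box B).filter (P B a)).card + ((box B).filter (Q B a)).card := by
    rw [Finset.filter_or]
    exact Finset.card_union_le _ _
  have h9 : (((box B).filter (fun t => P B a t ∨ Q B a t)).card : ℝ) ≤
      ((box B).filter (P B a)).card + ((box B).filter (Q B a)).card := by exact_mod_cast h8
  have h10 : (((box B).filter (fun t => P B a t ∨ Q B a t)).card : ℝ) ≤
      (B : ℝ) ^ (2 - min δ δ' / 2) := by rw [h6]; nlinarith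
  convert h10

theorem Sm.ex {α ι : Type} {ok : ℕ → α → Prop} (s : Finset ι) {P : ι → ℕ → α → ℤ × ℤ → Prop}
    (h : ∀ i ∈ s, Sm ok (P i)) : Sm ok (fun B a t => ∃ i ∈ s, P i B a t) := by
  classical
  induction s using Finset.induction_on with
  | empty => exact (Sm.empty ok).mono (fun _ _ h => h) (fun B a t _ h => by simp at h)
  | insert j s _ ih =>
    have h1 := (h j (Finset.mem_insert_self j s)).or
      (ih (fun i hi => h i (Finset.mem_insert_of_mem hi)))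
    refine h1.mono (fun _ _ h => h) (fun B a t _ h => ?_)
    obtain ⟨i, hi, hP⟩ := h
    rcases Finset.mem_insert.mp hi with rfl | hi
    · exact Or.inl hP
    · exact Or.inr ⟨i, hi, hP⟩

/-- The value is neither small nor of exceptional shape. -/
def Nice (η : ℝ) (B : ℕ) (D n : ℤ) : Prop := ¬ PA η B D n ∧ ¬ PB η B D n ∧ ¬ PC η B D n

theorem fibre (hA : Few PA) (hB : Few PB) (hC : Few PC) (hArch : ArchStmt) (m : ℕ)
    (r : Fin m → ℕ) (J : Fin m → Prop) (hJ : ∀ i, J i → 1 ≤ r i) (c R : ℕ) (hR : 1 ≤ R) (η : ℝ)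
    (hη : 0 < η) (hη' : η ≤ 1 / 4) :
    Sm (α := (Fin m → ℤ[X]) × (Fin m → ℤ[X]) × ℤ)
      (fun B a => (∀ i, (a.1 i).natDegree ≤ r i ∧ (a.1 i).coeff (r i) ≠ 0) ∧
        ∀ i, J i → Adm (r i) c R B (a.2.1 i) a.2.2)
      (fun B a t => ¬ ((∀ i, |((a.1 i).coeff (r i) : ℝ)| * (B : ℝ) ^ ((r i : ℝ) - η) ≤
          |(hv (a.1 i) (r i) t : ℝ)|) ∧
        ∀ i, J i → hv (a.2.1 i) (r i) t ≠ 0 → Nice η B a.2.2 (hv (a.2.1 i) (r i) t))) := by
  classical
  have key : ∀ P : ℝ → ℕ → ℤ → ℤ → Prop, Few P → ∀ i : Fin m,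
      Sm (α := (Fin m → ℤ[X]) × (Fin m → ℤ[X]) × ℤ)
        (fun B a => (∀ i, (a.1 i).natDegree ≤ r i ∧ (a.1 i).coeff (r i) ≠ 0) ∧
          ∀ i, J i → Adm (r i) c R B (a.2.1 i) a.2.2)
        (fun B a t => J i ∧ hv (a.2.1 i) (r i) t ≠ 0 ∧ P η B a.2.2 (hv (a.2.1 i) (r i) t)) := by
    intro P hP i
    by_cases hi : J i
    · obtain ⟨δ, hδ, B0, h⟩ := hP (r i) c R η (hJ i hi) hR hη hη'
      refine ⟨δ, hδ, B0, fun B hB a ha => le_trans ?_ (h B hB (a.2.1 i) a.2.2 (ha.2 i hi))⟩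
      apply Nat.cast_le.mpr
      apply Finset.card_le_card
      intro t ht
      simp only [Finset.mem_filter] at ht ⊢
      exact ⟨ht.1, ht.2.2⟩
    · exact (Sm.empty _).mono (fun _ _ h => h) (fun B a t _ h => hi h.1)
  have arch : ∀ i : Fin m,
      Sm (α := (Fin m → ℤ[X]) × (Fin m → ℤ[X]) × ℤ)
        (fun B a => (∀ i, (a.1 i).natDegree ≤ r i ∧ (a.1 i).coeff (r i) ≠ 0) ∧
          ∀ i, J i → Adm (r i) c R B (a.2.1 i) a.2.2)
        (fun B a t => |(hv (a.1 i) (r i) t : ℝ)| <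
          |((a.1 i).coeff (r i) : ℝ)| * (B : ℝ) ^ ((r i : ℝ) - η)) := by
    intro i
    obtain ⟨δ, hδ, B0, h⟩ := hArch (r i) η hη
    refine ⟨δ, hδ, B0, fun B hB a ha => ?_⟩
    convert h B hB (a.1 i) (ha.1 i).1 (ha.1 i).2
  have all := Sm.ex Finset.univ (fun i _ =>
    (arch i).or ((key PA hA i).or ((key PB hB i).or (key PC hC i))))
  refine all.mono (fun _ _ h => h) (fun B a t _ h => ?_)
  by_contra hcon
  apply h
  constructor
  · intro i
    by_contra h1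
    exact hcon ⟨i, Finset.mem_univ i, Or.inl (not_le.mp h1)⟩
  · intro i hi hne
    refine ⟨fun h1 => hcon ⟨i, Finset.mem_univ i, Or.inr (Or.inl ⟨hi, hne, h1⟩)⟩,
      fun h1 => hcon ⟨i, Finset.mem_univ i, Or.inr (Or.inr (Or.inl ⟨hi, hne, h1⟩))⟩,
      fun h1 => hcon ⟨i, Finset.mem_univ i, Or.inr (Or.inr (Or.inr ⟨hi, hne, h1⟩))⟩⟩

theorem hv_field {K : Type} [Field K] (g : ℤ[X]) (r : ℕ) (hg : g.natDegree ≤ r) (t : ℤ × ℤ)
    (ht : (t.2 : K) ≠ 0) :
    ((hv g r t : ℤ) : K) = (t.2 : K) ^ r * aeval ((t.1 : K) / (t.2 : K)) g := by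
  rw [aeval_eq_sum_range' (Nat.lt_succ_of_le hg), Finset.mul_sum, hv]
  push_cast
  apply Finset.sum_congr rfl
  intro k hk
  have hk' : k ≤ r := Nat.lt_succ_iff.mp (Finset.mem_range.mp hk)
  obtain ⟨j, rfl⟩ := Nat.exists_eq_add_of_le hk'
  rw [Nat.add_sub_cancel_left, zsmul_eq_mul, div_pow, pow_add]
  field_simp

theorem cop_pair (g h : ℤ[X]) (r r' : ℕ) (hg : g.natDegree ≤ r) (hh : h.natDegree ≤ r') (D : ℤ)
    (hlc : g.coeff r ∣ D) (hUV : ∃ U V : ℤ[X], U * g + V * h = C D) (t : ℤ × ℤ)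
    (ht : Int.gcd t.1 t.2 = 1) (p : ℕ) (hp : p.Prime) (h1 : (p : ℤ) ∣ hv g r t)
    (h2 : (p : ℤ) ∣ hv h r' t) : (p : ℤ) ∣ D := by
  have := Fact.mk hp
  rw [← ZMod.intCast_zmod_eq_zero_iff_dvd] at h1 h2
  by_cases h0 : (t.2 : ZMod p) = 0
  · have ht1 : (t.1 : ZMod p) ≠ 0 := by
      intro h3
      rw [ZMod.intCast_zmod_eq_zero_iff_dvd] at h0 h3
      have := Int.dvd_gcd h3 h0
      rw [ht] at this
      exact hp.ne_one (Nat.dvd_one.mp this)
    rw [hv, Finset.sum_range_succ] at h1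
    push_cast at h1
    rw [Finset.sum_eq_zero (fun k hk => by
      have : r - k ≠ 0 := by have := Finset.mem_range.mp hk; omega
      rw [h0, zero_pow this, mul_zero])] at h1
    simp only [Nat.sub_self, pow_zero, mul_one, zero_add, mul_eq_zero] at h1
    rcases h1 with h1 | h1
    · rw [ZMod.intCast_zmod_eq_zero_iff_dvd] at h1
      exact h1.trans hlc
    · exact absurd (pow_eq_zero_iff (M₀ := ZMod p) (by
        rintro rfl; simp at h1) |>.mp h1) ht1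
  · rw [hv_field g r hg t h0] at h1
    rw [hv_field h r' hh t h0] at h2
    have e1 := (mul_eq_zero.mp h1).resolve_left (pow_ne_zero _ h0)
    have e2 := (mul_eq_zero.mp h2).resolve_left (pow_ne_zero _ h0)
    obtain ⟨U, V, hUV⟩ := hUV
    have := congrArg (aeval ((t.1 : ZMod p) / (t.2 : ZMod p))) hUV
    rw [map_add, map_mul, map_mul, e1, e2, aeval_C] at this
    rw [← ZMod.intCast_zmod_eq_zero_iff_dvd]
    simpa using this.symm

/-- The product of the primes dividing `N`. -/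
def rad (N : ℤ) : ℕ := ∏ p ∈ N.natAbs.primeFactors, p

theorem prod_le_rad {m : ℕ} (g : Fin m → ℕ) (N : ℤ) (hN : N ≠ 0) (hs : ∀ i, Squarefree (g i))
    (hd : ∀ i, (g i : ℤ) ∣ N) (hc : ∀ i j, i ≠ j → Nat.Coprime (g i) (g j)) :
    ∏ i, g i ≤ rad N := by
  have hpos : 0 < rad N :=
    Finset.prod_pos (fun p hp => (Nat.prime_of_mem_primeFactors hp).pos)
  apply Nat.le_of_dvd hpos
  apply Finset.prod_dvd_of_isRelPrime
  · intro i _ j _ hij
    exact Nat.coprime_iff_isRelPrime.mp (hc i j hij)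
  · intro i _
    rw [← Nat.prod_primeFactors_of_squarefree (hs i)]
    apply Finset.prod_dvd_prod_of_subset
    exact Nat.primeFactors_mono (Int.natCast_dvd.mp (hd i)) (Int.natAbs_ne_zero.mpr hN)

theorem exists_D (hRes : ResStmt) (m : ℕ) (g : Fin m → ℤ[X]) (a : Fin m → ℤ) (J : Fin m → Prop)
    (H : ℤ) (hH : 1 ≤ H) (hdeg : ∀ i, (g i).natDegree ≤ 8) (hco : ∀ i k, |(g i).coeff k| ≤ H)
    (ha : ∀ i, a i ≠ 0) (haH : ∀ i, |a i| ≤ H) (hJ : ∀ i, J i → 1 ≤ (g i).natDegree)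
    (hsep : ∀ i, J i → ((g i).map (Int.castRingHom ℚ)).Separable)
    (hcop : ∀ i j, i ≠ j →
      IsCoprime ((g i).map (Int.castRingHom ℚ)) ((g j).map (Int.castRingHom ℚ))) :
    ∃ D : ℤ, D ≠ 0 ∧ |D| ≤ (((2 * 8).factorial : ℤ) * (8 * H) ^ (2 * 8)) ^ (m + m * m) ∧
      (∀ i, a i ∣ D) ∧ (∀ i, J i → ∃ U V : ℤ[X], U * g i + V * derivative (g i) = C D) ∧
      ∀ i j, i ≠ j → J i → ∃ U V : ℤ[X], U * g i + V * g j = C D := by
  set M : ℤ := ((2 * 8).factorial : ℤ) * (8 * H) ^ (2 * 8) with hM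
  have hf : (1 : ℤ) ≤ ((2 * 8).factorial : ℤ) := by exact_mod_cast Nat.factorial_pos _
  have h8 : (1 : ℤ) ≤ 8 * H := by linarith
  have hHM : H ≤ M := by
    have : 8 * H ≤ (8 * H) ^ (2 * 8) := le_self_pow₀ h8 (by norm_num)
    have h2 : (0 : ℤ) ≤ (8 * H) ^ (2 * 8) := by positivity
    nlinarith
  have hco' : ∀ i k, |(g i).coeff k| ≤ 8 * H := fun i k => (hco i k).trans (by linarith)
  have hder : ∀ i k, |(derivative (g i)).coeff k| ≤ 8 * H := by
    intro i k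
    rw [coeff_derivative]
    by_cases hk : k + 1 ≤ 8
    · rw [abs_mul, mul_comm]
      have h1 : |((k : ℤ) + 1)| ≤ 8 := by
        rw [abs_of_nonneg (by positivity)]; exact_mod_cast hk
      exact mul_le_mul h1 (hco i _) (abs_nonneg _) (by norm_num)
    · rw [coeff_eq_zero_of_natDegree_lt (by have := hdeg i; omega)]
      simp only [zero_mul, abs_zero]
      linarith
  have hpair : ∀ ij : Fin m × Fin m, ∃ E : ℤ, E ≠ 0 ∧ |E| ≤ M ∧
      (ij.1 = ij.2 → J ij.1 → ∃ U V : ℤ[X], U * g ij.1 + V * derivative (g ij.1) = C E) ∧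
      (ij.1 ≠ ij.2 → J ij.1 → ∃ U V : ℤ[X], U * g ij.1 + V * g ij.2 = C E) := by
    rintro ⟨i, j⟩
    by_cases hi : J i
    · by_cases hij : i = j
      · obtain ⟨E, h1, h2, h3⟩ := hRes 8 (g i) (derivative (g i)) (8 * H) (hdeg i)
          ((natDegree_derivative_le _).trans ((Nat.sub_le _ _).trans (hdeg i))) (hJ i hi) h8
          (hco' i) (hder i) (by
            have := hsep i hi
            rwa [Separable, derivative_map] at this)
        exact ⟨E, h1, h2, fun _ _ => h3, fun h => absurd hij h⟩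
      · obtain ⟨E, h1, h2, h3⟩ := hRes 8 (g i) (g j) (8 * H) (hdeg i) (hdeg j) (hJ i hi) h8
          (hco' i) (hco' j) (hcop i j hij)
        exact ⟨E, h1, h2, fun h => absurd h hij, fun _ _ => h3⟩
    · exact ⟨1, one_ne_zero, by rw [abs_one]; linarith, fun _ h => absurd h hi,
        fun _ h => absurd h hi⟩
  choose E hE0 hEM hE1 hE2 using hpair
  have hmul : ∀ (u v : ℤ[X]) (x y : ℤ), x ∣ y → (∃ U V : ℤ[X], U * u + V * v = C x) →
      ∃ U V : ℤ[X], U * u + V * v = C y := by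
    rintro u v x y ⟨w, rfl⟩ ⟨U, V, h⟩
    exact ⟨C w * U, C w * V, by rw [map_mul, ← h]; ring⟩
  have hEd : ∀ ij, E ij ∣ (∏ i, a i) * ∏ ij, E ij := fun ij =>
    Dvd.dvd.mul_left (Finset.dvd_prod_of_mem _ (Finset.mem_univ ij)) _
  refine ⟨(∏ i, a i) * ∏ ij, E ij, mul_ne_zero (Finset.prod_ne_zero_iff.mpr fun i _ => ha i)
    (Finset.prod_ne_zero_iff.mpr fun ij _ => hE0 ij), ?_,
    fun i => Dvd.dvd.mul_right (Finset.dvd_prod_of_mem _ (Finset.mem_univ i)) _,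
    fun i hi => hmul _ _ _ _ (hEd (i, i)) (hE1 (i, i) rfl hi),
    fun i j hij hi => hmul _ _ _ _ (hEd (i, j)) (hE2 (i, j) hij hi)⟩
  rw [abs_mul, Finset.abs_prod, Finset.abs_prod, pow_add]
  have e1 : ∏ i, |a i| ≤ M ^ m := by
    calc ∏ i, |a i| ≤ ∏ _i : Fin m, M :=
          Finset.prod_le_prod (fun i _ => abs_nonneg _) (fun i _ => (haH i).trans hHM)
      _ = M ^ m := by simp
  have e2 : ∏ ij, |E ij| ≤ M ^ (m * m) := by
    calc ∏ ij, |E ij| ≤ ∏ _ij : Fin m × Fin m, M :=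
          Finset.prod_le_prod (fun i _ => abs_nonneg _) (fun ij _ => hEM ij)
      _ = M ^ (m * m) := by simp
  exact mul_le_mul e1 e2 (Finset.prod_nonneg fun _ _ => abs_nonneg _)
    (pow_nonneg (by linarith) _)

end Pool.Agent.MP_542436_nt.H5
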